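import Pool.Agent.VHW.Der

/-!
# VHW/Chain : the chain of root types (MP_720b7c_al; statements helper18, proofs helper57)

The blocks `rt n` (level `n`) sit in the middle `rq = (3,3)` of the brick `q 1`; the slots `2, 3, 4` are
overwritten cyclically, all other slots are ancient.
-/

set_option autoImplicit false

namespace Pool.Agent.VHW

open Pool.Agent.VHS

/-- empty slot of `rt n` -/
def mr (n : ℕ) : Sl := if n % 3 = 0 then 4 else if n % 3 = 1 then 2 else 3

/-- residue of the levels whose blocks have empty slot `c` -/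
def rr (c : Sl) : ℕ := if c = 4 then 0 else if c = 2 then 1 else 2

/-- ancient slots -/
def anc (c : Sl) : Prop := c ≠ 2 ∧ c ≠ 3 ∧ c ≠ 4

instance : DecidablePred anc := fun c => by unfold anc; infer_instance

/-- `n +` this number is the level of the header in slot `c` (ancient slots: some number `> 3`) -/
def rk (n : ℕ) (c : Sl) : ℕ := if anc c then 4 + c.val else (rr c + 3 - (n + 1) % 3) % 3 + 1

/-- slot of an index -/
def js (m : Sl) : J → Sl
  | .s c => c
  | .h _ => m

/-- root types -/
def rtR (n : ℕ) : Raw where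
  m := mr n
  par := mr (n + 1)
  ln _ := false
  al _ := mr n
  be _ := mr n
  di d e := if d.hor = e.hor then none else some (mr n)
  gam _ _ := none
  R a b := decide (rk n (js (mr n) b) < rk n (js (mr n) a))

/-- position in the chain -/
def rq : P := (3, 3)

/-- levels -/
def lvr (n : ℕ) (c : Sl) : ℕ := n + rk n c

theorem mr_mod (n : ℕ) : mr n = mr (n % 3) := by
  unfold mr; rw [Nat.mod_mod]

theorem rk_mod (n : ℕ) (c : Sl) : rk n c = rk (n % 3) c := by
  unfold rk; rw [Nat.add_mod n 1 3, Nat.add_mod (n % 3) 1 3, Nat.mod_mod]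

theorem mr_add (n k : ℕ) : mr (n + k) = mr (n % 3 + k) := by
  rw [mr_mod, mr_mod (n % 3 + k), Nat.add_mod, Nat.add_mod (n % 3) k, Nat.mod_mod]

theorem rk_add (n k : ℕ) (c : Sl) : rk (n + k) c = rk (n % 3 + k) c := by
  rw [rk_mod, rk_mod (n % 3 + k), Nat.add_mod, Nat.add_mod (n % 3) k, Nat.mod_mod]

/-- reduction to the three residues -/
theorem red3 {Q : ℕ → Prop} (h : ∀ r : Fin 3, Q r.val) (n : ℕ) : Q (n % 3) :=
  h ⟨n % 3, Nat.mod_lt _ (by norm_num)⟩

theorem mr_ne (n : ℕ) : mr (n + 1) ≠ mr n := by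
  rw [mr_add, mr_mod n]
  exact red3 (Q := fun n => mr (n + 1) ≠ mr n) (by decide) n

theorem pick2 (n : ℕ) : pick [mr n, mr (n + 1)] = 0 := by
  rw [mr_add, mr_mod n]
  exact red3 (Q := fun n => pick [mr n, mr (n + 1)] = 0) (by decide) n

theorem pick3 (n : ℕ) : pick [mr n, mr (n + 1), 0] = 1 := by
  rw [mr_add, mr_mod n]
  exact red3 (Q := fun n => pick [mr n, mr (n + 1), 0] = 1) (by decide) n

theorem pick4 (n : ℕ) : pick [mr n, mr (n + 1), 0, 1] = mr (n + 2) := by
  rw [mr_add n 1, mr_add n 2, mr_mod n]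
  exact red3 (Q := fun n => pick [mr n, mr (n + 1), 0, 1] = mr (n + 2)) (by decide) n

theorem rt_di (n : ℕ) (d e : Side) : ((rtR n).di d e).getD (mr n) = mr n := by
  simp only [rtR]
  split <;> rfl

theorem rt_vn (n : ℕ) (d e : Side) : (rtR n).vn d e = 0 := by
  rw [← pick2 n]
  unfold Raw.vn
  apply pick_congr
  intro x
  have := rt_di n d e
  simp only [Raw.vl]
  show x ∈ [mr n, mr (n + 1), mr n, mr n, mr n, mr n, ((rtR n).di d e).getD (mr n), mr n] ↔ _
  rw [this]
  simp only [List.mem_cons, List.not_mem_nil, or_false]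
  tauto

theorem rt_en (n : ℕ) (d : Side) : (rtR n).en d = 1 := by
  rw [← pick3 n]
  unfold Raw.en
  apply pick_congr
  intro x
  simp only [Raw.el, rt_vn]
  show x ∈ [mr n, mr (n + 1), mr n, mr n, 0, 0] ↔ _
  simp only [List.mem_cons, List.not_mem_nil, or_false]
  tauto

theorem rt_q1 (n : ℕ) : (rtR n).q1 = mr (n + 2) := by
  rw [← pick4 n]
  unfold Raw.q1
  apply pick_congr
  intro x
  simp only [Raw.rg, rt_vn, rt_en]
  show x ∈ [mr n, mr (n + 1), 0, 0, 0, 0, 1, 1, 1, 1] ↔ _
  simp only [List.mem_cons, List.not_mem_nil, or_false]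
  tauto

theorem rt_nm {n : ℕ} {p : P} (h : bk p = .q 1) : (rtR (n + 1)).nm p = mr n := by
  unfold Raw.nm
  rw [h]
  have h1 : (rtR (n + 1)).name (.q 1) = (rtR (n + 1)).q1 := rfl
  rw [h1, rt_q1, mr_mod, mr_mod n]
  congr 1
  omega

theorem rq_on (d : Side) : onS d rq = false := by revert d; decide
theorem rq1_on (d e : Side) : onS e (stp d rq) = false := by revert d e; decide
theorem rq_bk : bk rq = .q 1 := by decide
theorem rq1_bk (d : Side) : bk (stp d rq) = .q 1 := by revert d; decide
theorem rq2_bk {d e : Side} (h : d.hor ≠ e.hor) : bk (stp d (stp e rq)) = .q 1 := by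
  revert d e; decide
theorem rq3_bk {d e : Side} (h : e ≠ d) : bk (stp e (stp d rq)) = .q 1 := by
  revert d e; decide
theorem rq4_bk {d e f : Side} (h1 : e ≠ d) (h2 : f ≠ d) (h : e.hor ≠ f.hor) :
    bk (stp e (stp f (stp d rq))) = .q 1 := by
  revert d e f; decide

theorem lv_key : ∀ (r : Fin 3) (c c' : Sl), c ≠ mr r.val → c' ≠ mr r.val → ¬ anc c → ¬ anc c' →
    rk r.val c < rk r.val c' → rk r.val c + rk (r.val + rk r.val c) c' = rk r.val c' := by
  decide +kernel

/-- comparison of the ranks in the child and in the parent -/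
theorem rk_cmp (n : ℕ) (c c' : Sl) : decide (rk n c' < rk n c) =
    Rx (rtR (n + 1)).R (if c = mr (n + 1) then none else some (.s c))
      (if c' = mr (n + 1) then none else some (.s c')) := by
  have h := red3 (Q := fun n => ∀ c c' : Sl, decide (rk n c' < rk n c) =
    Rx (fun a b => decide (rk (n + 1) b < rk (n + 1) a)) (if c = mr (n + 1) then none else some c)
      (if c' = mr (n + 1) then none else some c')) (by decide +kernel) n c c'
  rw [← mr_add n 1, ← rk_mod, ← rk_mod] at h
  rw [h]
  by_cases h1 : c = mr (n + 1)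
  · rw [if_pos h1, if_pos h1]; rfl
  · by_cases h2 : c' = mr (n + 1)
    · rw [if_neg h1, if_neg h1, if_pos h2, if_pos h2]; rfl
    · rw [if_neg h1, if_neg h1, if_neg h2, if_neg h2]
      simp only [Rx, rtR, js]
      rw [← rk_add n 1, ← rk_add n 1]
      congr

theorem rt_phi (n : ℕ) {p : P} (hp : ∀ d, onS d p = false) (hb : bk p = .q 1) (a : J) :
    phi (rtR (n + 1)) p a = if js (mr n) a = mr (n + 1) then none else some (.s (js (mr n) a)) := by
  cases a with
  | s c => rfl
  | h d =>
    simp only [phi, js]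
    rw [hp d, rt_nm hb, if_neg (mr_ne n).symm]
    rfl

theorem rt_R (n : ℕ) {p : P} (hp : ∀ d, onS d p = false) (hb : bk p = .q 1) :
    (sg (rtR (n + 1)) p).R = (rtR n).R := by
  funext a b
  simp only [sg]
  rw [rt_phi n hp hb, rt_phi n hp hb, ← rk_cmp]
  rfl

theorem rt_sg (n : ℕ) : rtR n = sg (rtR (n + 1)) rq := by
  apply Raw.ext
  · exact (rt_nm rq_bk).symm
  · rfl
  · funext d; exact (rq_on d).symm
  · funext d
    simp only [sg, rq_on, rt_nm rq_bk]; rfl
  · funext d
    simp only [sg, rq_on, rt_nm (rq1_bk d)]; rfl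
  · funext d e
    simp only [sg, rq_on]
    by_cases h : d.hor = e.hor
    · simp [rtR, h]
    · rw [rt_nm (rq2_bk h)]
      simp [rtR, h]
  · funext d e
    simp [sg, rq_on, rtR]
  · exact (rt_R n rq_on rq_bk).symm

theorem rt_inv (n : ℕ) : Inv (rtR n) where
  dis d e := by
    simp only [rtR]
    by_cases h : d.hor = e.hor
    · rw [if_pos h, if_pos h.symm]
    · rw [if_neg h, if_neg (fun x => h x.symm)]
  gas _ _ := rfl
  pm := mr_ne n
  lnm d h := by cases h
  int _ _ := rfl
  bp _ h := absurd rfl h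
  far d h := by cases h
  ii d e h _ _ := by
    simp only [rtR]
    rw [if_neg h]
    exact ⟨rfl, fun _ => trivial⟩
  mix d e _ h := by cases h
  eqc d e x _ h := by cases h
  neq d e _ h := by cases h
  ir a := by simp [rtR]
  RH d h := by cases h

theorem rt_opp (n : ℕ) {d : Side} {p : P} (hp : onS d p = true) :
    opp d (sg (rtR n) p) = sg (rtR n) (stp d p) := by
  have h0 := sib_sg (rt_inv (n + 1)) (d := d) (q := rq) (rq_on d) hp
  rw [← rt_sg n] at h0
  rw [h0]
  have hpp : onS d.op (stp d p) = true := by rw [onS_op_stp']; exact hp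
  have hps : onS d (stp d p) = false := onS_stp_of hp
  -- names
  have hn : ∀ r, onS d.op r = true → (sg (rtR (n + 1)) (stp d rq)).nm r = (rtR n).nm r := by
    intro r hr
    have hr2 : onS d (stp d.op r) = true := by
      have := onS_op_stp' d.op r
      rw [Side.op_op] at this
      rw [this]; exact hr
    have h1 := nm_sib (rt_inv (n + 1)).toSym (rq_on d) hr2
    rw [stp_stp_op, ← rt_sg n] at h1
    rw [h1, nm_side (rt_inv n).toSym hr2, nm_side (rt_inv n).toSym hr]
    have h2 := cor_opp d (stp d.op r)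
    rw [stp_stp_op] at h2
    rw [h2]
    cases cor d (stp d.op r) with
    | none => simp only [snm]; rw [rt_en, rt_en]
    | some e => simp only [snm]; rw [rt_vn, rt_vn]
  have hB : ∀ e, (sg (rtR (n + 1)) (stp d rq)).al e = mr n := by
    intro e
    simp only [sg, rq1_on, rt_nm (rq1_bk d)]; rfl
  have hBbe : ∀ e, e ≠ d → (sg (rtR (n + 1)) (stp d rq)).be e = mr n := by
    intro e he
    simp only [sg, rq1_on, rt_nm (rq3_bk he)]; rfl
  have hBdi : ∀ e f, e ≠ d → f ≠ d → e.hor ≠ f.hor →
      (sg (rtR (n + 1)) (stp d rq)).di e f = some (mr n) := by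
    intro e f he hf hef
    simp only [sg, rq1_on, rt_nm (rq4_bk he hf hef), hef]; simp
  have hBln : ∀ e, (sg (rtR (n + 1)) (stp d rq)).ln e = false := fun e => rq1_on d e
  have hBm : (sg (rtR (n + 1)) (stp d rq)).m = mr n := rt_nm (rq1_bk d)
  have hBR : (sg (rtR (n + 1)) (stp d rq)).R = (rtR n).R := rt_R n (rq1_on d) (rq1_bk d)
  have hBp : (sg (rtR (n + 1)) (stp d rq)).par = mr (n + 1) := rfl
  -- thick
  have ht : ∀ (θ : Raw) (r : P), onS d.op r = true → θ.nm (stp d r) = θ.nm r := by
    intro θ r hr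
    have := thick θ (d := d.op) (p := r) hr
    rwa [Side.op_op] at this
  generalize (sg (rtR (n + 1)) (stp d rq)) = B at hn hB hBbe hBdi hBln hBm hBR hBp
  generalize stp d p = r at hpp hps
  apply Raw.ext
  · exact hn r hpp
  · exact hBm
  · rfl
  · funext e
    simp only [sg]
    rw [hB e, hn r hpp]; rfl
  · funext e
    simp only [sg]
    by_cases h1 : e = d
    · subst h1
      rw [hps, ht _ r hpp, ht _ r hpp, hn r hpp]; rfl
    · rw [hBbe e h1]
      by_cases h2 : onS e r = true
      · rw [if_pos h2, if_pos h2]; rfl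
      · rw [if_neg h2, if_neg h2]
        have h3 : onS d.op (stp e r) = true := by
          have h4 : e ≠ d.op := by rintro rfl; exact h2 hpp
          have h5 : d.op.hor ≠ e.hor := by
            revert h1 h4; cases d <;> cases e <;> decide
          rw [onS_stp_perp h5]; exact hpp
        exact hn _ h3
  · funext e f
    simp only [sg]
    by_cases hef : e.hor = f.hor
    · rw [if_pos hef, if_pos hef]
    · rw [if_neg hef, if_neg hef]
      by_cases h1 : onS e r = true ∧ onS f r = true
      · rw [if_pos h1, if_pos h1]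
        have he : e ≠ d := by rintro rfl; rw [hps] at h1; simp at h1
        have hf : f ≠ d := by rintro rfl; rw [hps] at h1; simp at h1
        rw [hBdi e f he hf hef]
        simp [rtR, hef]
      · rw [if_neg h1, if_neg h1]
        by_cases h2 : onS e r = true ∨ onS f r = true
        · rw [if_pos h2, if_pos h2]
        · rw [if_neg h2, if_neg h2]
          push Not at h2
          have h3 : e ≠ d.op := by rintro rfl; exact h2.1 hpp
          have h4 : f ≠ d.op := by rintro rfl; exact h2.2 hpp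
          have h5 : (e = d ∧ d.op.hor ≠ f.hor) ∨ (f = d ∧ d.op.hor ≠ e.hor) := by
            revert h3 h4 hef; cases d <;> cases e <;> cases f <;> decide
          rcases h5 with ⟨rfl, h6⟩ | ⟨rfl, h6⟩
          · have h7 : onS e.op (stp f r) = true := by rw [onS_stp_perp h6]; exact hpp
            rw [ht _ _ h7, ht _ _ h7, hn _ h7]
          · have h7 : onS f.op (stp e r) = true := by rw [onS_stp_perp h6]; exact hpp
            rw [stp_comm e f, ht _ _ h7, ht _ _ h7, hn _ h7]
  · funext e f
    simp only [sg]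
    rw [hBln, hBln, hBp]
    simp [rtR]
  · funext a b
    simp only [sg]
    have h1 : ∀ a, phi B r a = phi (rtR n) r a := by
      intro a
      cases a with
      | s c => simp only [phi]; rw [hBm]; rfl
      | h e =>
        simp only [phi]
        rw [hBln, hBm, hn r hpp]; rfl
    rw [hBR, h1, h1]

theorem anc_mis (n : ℕ) : ¬ anc (mr n) := by
  rw [mr_mod n]
  exact red3 (Q := fun n => ¬ anc (mr n)) (by decide) n

theorem lv_gt (n : ℕ) (c : Sl) : n < lvr n c := by
  unfold lvr rk
  split_ifs <;> omega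

theorem lv_mis (n : ℕ) (c : Sl) (h : c ≠ mr n) (ha : ¬ anc c) : mr (lvr n c) = c := by
  unfold lvr
  rw [mr_add, rk_mod]
  rw [mr_mod n] at h
  revert h ha
  exact red3 (Q := fun n => c ≠ mr n → ¬ anc c → mr (n + rk n c) = c)
    (by revert c; decide) n

theorem lv_par (n : ℕ) : lvr n (mr (n + 1)) = n + 1 := by
  unfold lvr
  rw [mr_add, rk_mod]
  congr 1
  exact red3 (Q := fun n => rk n (mr (n + 1)) = 1) (by decide) n

theorem lv_old (n : ℕ) (c c' : Sl) (h : old (rtR n) c c') (ha : ¬ anc c') :
    ¬ anc c ∧ lvr n c < lvr n c' := by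
  obtain ⟨_, _, h3⟩ := h
  simp only [rtR, js, decide_eq_true_eq] at h3
  refine ⟨?_, by unfold lvr; omega⟩
  intro hc
  unfold rk at h3
  rw [if_pos hc, if_neg ha] at h3
  omega

theorem lv_lv (n : ℕ) (c c' : Sl) (h : c ≠ mr n) (h' : c' ≠ mr n) (ha : ¬ anc c) (ha' : ¬ anc c')
    (hl : lvr n c < lvr n c') : lvr (lvr n c) c' = lvr n c' := by
  unfold lvr at hl ⊢
  rw [rk_add n (rk n c) c']
  rw [rk_mod n c, rk_mod n c'] at hl ⊢
  rw [mr_mod n] at h h'
  have hl2 : rk (n % 3) c < rk (n % 3) c' := by omega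
  have key := lv_key ⟨n % 3, Nat.mod_lt _ (by norm_num)⟩ c c' h h' ha ha' hl2
  simp only at key
  omega

end Pool.Agent.VHW
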