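import Pool.Agent.VHW.Tpl

/-!
# VHW/TplFacts : facts on the `9 × 9` template (helper48, `MP_720b7c_al`)
-/

set_option autoImplicit false

namespace Pool.Agent.VHW

open Pool.Agent.VHS

variable {Sl : Type} {f : Bk → Sl}

/-! ### codes of bricks -/

/-- number of a side -/
def sc : Side → ℕ
  | .L => 0
  | .R => 1
  | .B => 2
  | .U => 3

theorem sc_inj : ∀ a b : Side, sc a = sc b → a = b := by decide

/-- number of a brick -/
def cd : Bk → ℕ
  | .v h k => 4 * sc h + sc k
  | .e d => 16 + sc d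
  | .q i => 20 + i.val

theorem sc_lt (a : Side) : sc a < 4 := by cases a <;> decide

theorem cd_inj (a b : Bk) (h : cd a = cd b) : a = b := by
  cases a with
  | v h1 k1 =>
    have := sc_lt h1; have := sc_lt k1
    cases b with
    | v h2 k2 =>
      have := sc_lt h2; have := sc_lt k2
      simp only [cd] at h
      have e1 : h1 = h2 := sc_inj _ _ (by omega)
      have e2 : k1 = k2 := sc_inj _ _ (by omega)
      rw [e1, e2]
    | e d => simp only [cd] at h; omega
    | q i => simp only [cd] at h; omega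
  | e d =>
    have := sc_lt d
    cases b with
    | v h2 k2 =>
      have := sc_lt h2; have := sc_lt k2
      simp only [cd] at h; omega
    | e d' =>
      have := sc_lt d'
      simp only [cd] at h
      rw [sc_inj d d' (by omega)]
    | q i => simp only [cd] at h; omega
  | q i =>
    cases b with
    | v h2 k2 =>
      have := sc_lt h2; have := sc_lt k2
      simp only [cd] at h; omega
    | e d' =>
      have := sc_lt d'
      simp only [cd] at h; omega
    | q j =>
      simp only [cd] at h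
      congr 1
      apply Fin.ext
      omega

/-- equality of bricks, as a Boolean function -/
def eqb (a b : Bk) : Bool := Nat.beq (cd a) (cd b)

theorem eqb_iff (a b : Bk) : eqb a b = true ↔ a = b := by
  unfold eqb
  rw [Nat.beq_eq]
  exact ⟨cd_inj a b, fun h => by rw [h]⟩

/-- pairs of bricks which have different names under every proper name map -/
def ppb : Bk → Bk → Bool
  | .q i, .q j => !(Nat.beq i.val j.val)
  | .q _, .v _ _ => true
  | .q _, .e _ => true
  | .v _ _, .q _ => true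
  | .e _, .q _ => true
  | .e d, .v h k => h.hor && !k.hor && (Nat.beq (sc d) (sc h) || Nat.beq (sc d) (sc k))
  | .v h k, .e d => h.hor && !k.hor && (Nat.beq (sc d) (sc h) || Nat.beq (sc d) (sc k))
  | .v _ _, .v _ _ => false
  | .e _, .e _ => false

theorem ev_ne (hf : Proper f) (d h k : Side)
    (e : (h.hor && !k.hor && (Nat.beq (sc d) (sc h) || Nat.beq (sc d) (sc k))) = true) :
    f (.e d) ≠ f (.v h k) := by
  simp only [Bool.and_eq_true, Bool.or_eq_true, Bool.not_eq_true', Nat.beq_eq] at e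
  obtain ⟨⟨e1, e2⟩, e3⟩ := e
  rcases e3 with e3 | e3
  · rw [sc_inj _ _ e3]; exact (hf.ev h k e1 e2).1
  · rw [sc_inj _ _ e3]; exact (hf.ev h k e1 e2).2

theorem ppb_ne (hf : Proper f) (a b : Bk) (h : ppb a b = true) : f a ≠ f b := by
  cases a with
  | v h1 k1 =>
    cases b with
    | v h2 k2 => simp [ppb] at h
    | e d => exact (ev_ne hf d h1 k1 h).symm
    | q i => exact (hf.qv i h1 k1).symm
  | e d =>
    cases b with
    | v h2 k2 => exact ev_ne hf d h2 k2 h
    | e d' => simp [ppb] at h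
    | q i => exact (hf.qe i d).symm
  | q i =>
    cases b with
    | v h2 k2 => exact hf.qv i h2 k2
    | e d' => exact hf.qe i d'
    | q j =>
      simp only [ppb, Bool.not_eq_true'] at h
      apply hf.qq
      intro e
      rw [e] at h
      have : Nat.beq j.val j.val = true := by rw [Nat.beq_eq]
      rw [this] at h
      exact absurd h (by decide)

/-! ### T-junctions -/

theorem tj_aux : ∀ (d d' : Side) (p : P), d.hor = true → d'.hor = false → onS d p = false →
    onS d' p = false → eqb (bk (stp d p)) (bk p) = false → eqb (bk (stp d' p)) (bk p) = false →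
    ppb (bk (stp d p)) (bk (stp d' p)) = true := by
  decide

theorem tj (hf : Proper f) (d d' : Side) (hd : d.hor = true) (hd' : d'.hor = false) (p : P)
    (h : onS d p = false) (h' : onS d' p = false) (h1 : f (bk (stp d p)) ≠ f (bk p))
    (h2 : f (bk (stp d' p)) ≠ f (bk p)) : f (bk (stp d p)) ≠ f (bk (stp d' p)) := by
  apply ppb_ne hf
  apply tj_aux d d' p hd hd' h h'
  · cases hb : eqb (bk (stp d p)) (bk p) with
    | false => rfl
    | true => exact absurd (congrArg f ((eqb_iff _ _).1 hb)) h1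
  · cases hb : eqb (bk (stp d' p)) (bk p) with
    | false => rfl
    | true => exact absurd (congrArg f ((eqb_iff _ _).1 hb)) h2

/-! ### coverage -/

/-- an inner position in the brick `q i` -/
def qp : Fin 4 → P
  | 0 => (2, 5)
  | 1 => (2, 2)
  | 2 => (5, 4)
  | 3 => (5, 2)

theorem qp_spec : ∀ i, inn (qp i) ∧ bk (qp i) = .q i := by
  intro i
  constructor
  · intro d
    revert i d; decide
  · revert i; decide

theorem cover3 (hf : Proper f) (c1 c2 c3 : Sl) :
    ∃ p, inn p ∧ f (bk p) ≠ c1 ∧ f (bk p) ≠ c2 ∧ f (bk p) ≠ c3 := by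
  classical
  by_contra hcon
  push Not at hcon
  have h : ∀ i : Fin 4, f (.q i) = c1 ∨ f (.q i) = c2 ∨ f (.q i) = c3 := by
    intro i
    by_contra h
    push Not at h
    have := hcon (qp i) (qp_spec i).1
    rw [(qp_spec i).2] at this
    exact h.2.2 (this h.1 h.2.1)
  have : ∀ i : Fin 4, ∃ j : Fin 3, f (.q i) = ![c1, c2, c3] j := by
    intro i
    rcases h i with h | h | h
    · exact ⟨0, h⟩
    · exact ⟨1, h⟩
    · exact ⟨2, h⟩
  choose g hg using this
  obtain ⟨i, j, hij, he⟩ := Fintype.exists_ne_map_eq_of_card_lt g (by simp)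
  exact hf.qq i j hij (by rw [hg, hg, he])

theorem coverS (hf : Proper f) (d : Side) (c : Sl) : ∃ p, onlyS d p ∧ f (bk p) ≠ c := by
  have key : ∀ (p q : P), onlyS d p → onlyS d q → ppb (bk p) (bk q) = true →
      ∃ p, onlyS d p ∧ f (bk p) ≠ c := by
    intro p q hp hq h
    by_cases hc : f (bk p) = c
    · exact ⟨q, hq, fun h' => ppb_ne hf _ _ h (by rw [hc, h'])⟩
    · exact ⟨p, hp, hc⟩
  cases d with
  | L => exact key (0, 4) (0, 7) (by unfold onlyS; decide) (by unfold onlyS; decide) (by decide)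
  | R => exact key (8, 4) (8, 7) (by unfold onlyS; decide) (by unfold onlyS; decide) (by decide)
  | B => exact key (4, 0) (7, 0) (by unfold onlyS; decide) (by unfold onlyS; decide) (by decide)
  | U => exact key (4, 8) (7, 8) (by unfold onlyS; decide) (by unfold onlyS; decide) (by decide)

/-! ### richness -/

/-- a cut at `p` -/
def cutb (d : Side) (p : P) : Bool := eqb (bk (stp d p)) (bk p)

/-- a stem at `p` -/
def stemb (d k : Side) (p : P) : Bool :=
  eqb (bk (stp k p)) (bk p) && ppb (bk (stp d p)) (bk p) && ppb (bk (stp d (stp k p))) (bk p) &&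
    ppb (bk (stp d p)) (bk (stp d (stp k p)))

/-- witness on a vertical side, rows `y0..y1` -/
def rv (d : Side) (x y0 y1 : ℕ) : Bool :=
  (List.range 9).any fun y => Nat.ble y0 y && Nat.ble y y1 &&
    (cutb d (pt x y) || (Nat.ble (y + 1) y1 && stemb d .U (pt x y)))

/-- witness on a horizontal side, columns `x0..x1` -/
def rh (d : Side) (y x0 x1 : ℕ) : Bool :=
  (List.range 9).any fun x => Nat.ble x0 x && Nat.ble x x1 &&
    (cutb d (pt x y) || (Nat.ble (x + 1) x1 && stemb d .R (pt x y)))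

/-- the complete check for one box -/
def bx (x0 x1 y0 y1 : ℕ) : Bool :=
  !(Nat.ble x0 x1) || !(Nat.ble y0 y1) ||
    (Nat.ble x0 1 && Nat.ble 7 x1 && Nat.ble y0 1 && Nat.ble 7 y1) ||
    (Nat.ble x1 6 && rv .R x1 y0 y1) || (Nat.ble 2 x0 && rv .L x0 y0 y1) ||
    (Nat.ble y1 6 && rh .U y1 x0 x1) || (Nat.ble 2 y0 && rh .B y0 x0 x1)

/-- the complete check -/
def bxAll : Bool :=
  (List.range 9).all fun x0 => (List.range 9).all fun x1 => (List.range 9).all fun y0 =>
    (List.range 9).all fun y1 => bx x0 x1 y0 y1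

set_option maxRecDepth 100000 in
theorem bxAll_true : bxAll = true := by
  decide +kernel

theorem cut_of (f : Bk → Sl) (d : Side) (p : P) (h : cutb d p = true) :
    cut (fun p => f (bk p)) d p := by
  show f (bk (stp d p)) = f (bk p)
  rw [(eqb_iff _ _).1 h]

theorem stem_of (hf : Proper f) (d k : Side) (p : P) (h : stemb d k p = true) :
    stem (fun p => f (bk p)) d k p := by
  simp only [stemb, Bool.and_eq_true] at h
  obtain ⟨⟨⟨h1, h2⟩, h3⟩, h4⟩ := h
  exact ⟨congrArg f ((eqb_iff _ _).1 h1), ppb_ne hf _ _ h2, ppb_ne hf _ _ h3, ppb_ne hf _ _ h4⟩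

theorem rv_spec (hf : Proper f) (d : Side) (x y0 y1 : ℕ) (h : rv d x y0 y1 = true) :
    ∃ y, y0 ≤ y ∧ y ≤ y1 ∧ (cut (fun p => f (bk p)) d (pt x y) ∨
      (y + 1 ≤ y1 ∧ stem (fun p => f (bk p)) d .U (pt x y))) := by
  simp only [rv, List.any_eq_true, Bool.and_eq_true, Bool.or_eq_true, Nat.ble_eq] at h
  obtain ⟨y, -, ⟨h1, h2⟩, h3⟩ := h
  exact ⟨y, h1, h2, h3.imp (cut_of f _ _) (fun h => ⟨h.1, stem_of hf _ _ _ h.2⟩)⟩

theorem rh_spec (hf : Proper f) (d : Side) (y x0 x1 : ℕ) (h : rh d y x0 x1 = true) :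
    ∃ x, x0 ≤ x ∧ x ≤ x1 ∧ (cut (fun p => f (bk p)) d (pt x y) ∨
      (x + 1 ≤ x1 ∧ stem (fun p => f (bk p)) d .R (pt x y))) := by
  simp only [rh, List.any_eq_true, Bool.and_eq_true, Bool.or_eq_true, Nat.ble_eq] at h
  obtain ⟨y, -, ⟨h1, h2⟩, h3⟩ := h
  exact ⟨y, h1, h2, h3.imp (cut_of f _ _) (fun h => ⟨h.1, stem_of hf _ _ _ h.2⟩)⟩

theorem rich (hf : Proper f) (x0 x1 y0 y1 : ℕ) (h1 : x0 ≤ x1) (h2 : x1 < 9) (h3 : y0 ≤ y1)
    (h4 : y1 < 9) (h5 : ¬ (x0 ≤ 1 ∧ 7 ≤ x1 ∧ y0 ≤ 1 ∧ 7 ≤ y1)) :
    (x1 ≤ 6 ∧ ∃ y, y0 ≤ y ∧ y ≤ y1 ∧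
      (cut (fun p => f (bk p)) .R (pt x1 y) ∨ (y + 1 ≤ y1 ∧ stem (fun p => f (bk p)) .R .U (pt x1 y)))) ∨
    (2 ≤ x0 ∧ ∃ y, y0 ≤ y ∧ y ≤ y1 ∧
      (cut (fun p => f (bk p)) .L (pt x0 y) ∨ (y + 1 ≤ y1 ∧ stem (fun p => f (bk p)) .L .U (pt x0 y)))) ∨
    (y1 ≤ 6 ∧ ∃ x, x0 ≤ x ∧ x ≤ x1 ∧
      (cut (fun p => f (bk p)) .U (pt x y1) ∨ (x + 1 ≤ x1 ∧ stem (fun p => f (bk p)) .U .R (pt x y1)))) ∨
    (2 ≤ y0 ∧ ∃ x, x0 ≤ x ∧ x ≤ x1 ∧
      (cut (fun p => f (bk p)) .B (pt x y0) ∨ (x + 1 ≤ x1 ∧ stem (fun p => f (bk p)) .B .R (pt x y0)))) := by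
  have h := bxAll_true
  simp only [bxAll, List.all_eq_true, List.mem_range] at h
  have hb := h x0 (by omega) x1 h2 y0 (by omega) y1 h4
  simp only [bx, Bool.or_eq_true, Bool.and_eq_true, Bool.not_eq_true', Nat.ble_eq] at hb
  rcases hb with ((((((hb | hb) | hb) | hb) | hb) | hb) | hb)
  · have : Nat.ble x0 x1 = true := by rw [Nat.ble_eq]; exact h1
    rw [this] at hb; exact absurd hb (by decide)
  · have : Nat.ble y0 y1 = true := by rw [Nat.ble_eq]; exact h3
    rw [this] at hb; exact absurd hb (by decide)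
  · exact absurd ⟨hb.1.1.1, hb.1.1.2, hb.1.2, hb.2⟩ h5
  · exact Or.inl ⟨hb.1, rv_spec hf _ _ _ _ hb.2⟩
  · exact Or.inr (Or.inl ⟨hb.1, rv_spec hf _ _ _ _ hb.2⟩)
  · exact Or.inr (Or.inr (Or.inl ⟨hb.1, rh_spec hf _ _ _ _ hb.2⟩))
  · exact Or.inr (Or.inr (Or.inr ⟨hb.1, rh_spec hf _ _ _ _ hb.2⟩))

/-! ### connectedness -/

/-- interior positions, Boolean version -/
def innb (p : P) : Bool := !(onS .L p) && !(onS .R p) && !(onS .B p) && !(onS .U p)

theorem innb_iff (p : P) : innb p = true ↔ inn p := by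
  unfold innb inn
  constructor
  · intro h d
    simp only [Bool.and_eq_true, Bool.not_eq_true'] at h
    obtain ⟨⟨⟨h1, h2⟩, h3⟩, h4⟩ := h
    cases d <;> assumption
  · intro h
    simp [h]

/-- a cell in each brick -/
def rep : Bk → P
  | .v .L .U => (2, 7)
  | .v .R .U => (6, 7)
  | .v .L .B => (2, 1)
  | .v .R .B => (6, 1)
  | .v _ _ => (0, 0)
  | .e .L => (1, 4)
  | .e .R => (7, 4)
  | .e .B => (4, 1)
  | .e .U => (4, 7)
  | .q i => qp i

/-- distance to the chosen cell -/
def ds (p : P) : ℕ :=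
  (p.1.val - (rep (bk p)).1.val) + ((rep (bk p)).1.val - p.1.val) +
    (p.2.val - (rep (bk p)).2.val) + ((rep (bk p)).2.val - p.2.val)

/-- one step towards the chosen cell is possible -/
def wk (p : P) (d : Side) : Bool :=
  innb (stp d p) && eqb (bk (stp d p)) (bk p) && Nat.ble (ds (stp d p) + 1) (ds p)

theorem wk_all : ∀ p : P, innb p = true → (eqb (bk p) (bk (rep (bk p))) = true ∧
    innb (rep (bk p)) = true) ∧ (p = rep (bk p) ∨
    (wk p .L || wk p .R || wk p .B || wk p .U) = true) := by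
  decide

/-- way of the bricks to `q 0` through inner bricks only -/
def t1 : Bk → P × Side
  | .v .L .U => ((2, 7), .B)
  | .v .R .U => ((6, 7), .B)
  | .v .L .B => ((2, 1), .U)
  | .v .R .B => ((6, 1), .U)
  | .v _ _ => ((0, 0), .U)
  | .e .L => ((1, 4), .R)
  | .e .R => ((7, 4), .L)
  | .e .B => ((4, 1), .U)
  | .e .U => ((4, 7), .B)
  | .q 0 => ((4, 5), .R)
  | .q 1 => ((2, 4), .U)
  | .q 2 => ((5, 4), .B)
  | .q 3 => ((5, 3), .L)

/-- rank for `t1` -/
def k1 : Bk → ℕ
  | .q 0 => 0
  | .q 1 => 1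
  | .q 2 => 3
  | .q 3 => 2
  | _ => 4

/-- way of the bricks to `e L` through ring bricks only -/
def t2 : Bk → P × Side
  | .v .L .U => ((1, 7), .B)
  | .v .R .U => ((6, 7), .L)
  | .v .L .B => ((1, 1), .U)
  | .v .R .B => ((6, 1), .L)
  | .v _ _ => ((0, 0), .U)
  | .e .L => ((1, 4), .R)
  | .e .R => ((7, 6), .U)
  | .e .B => ((3, 1), .L)
  | .e .U => ((3, 7), .L)
  | .q 0 => ((2, 5), .L)
  | .q 1 => ((2, 4), .L)
  | .q 2 => ((6, 4), .R)
  | .q 3 => ((6, 3), .R)

/-- rank for `t2` -/
def k2 : Bk → ℕ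
  | .e .L => 0
  | .v .L .U => 1
  | .v .L .B => 1
  | .e .U => 2
  | .e .B => 2
  | .v .R .U => 3
  | .v .R .B => 3
  | .e .R => 4
  | _ => 5

/-- is the brick an inner brick? -/
def isq : Bk → Bool
  | .q _ => true
  | _ => false

/-- the transition of `t` at the brick `b` is correct -/
def tok (t : Bk → P × Side) (k : Bk → ℕ) (b : Bk) : Bool :=
  innb (t b).1 && eqb (bk (t b).1) b && innb (stp (t b).2 (t b).1) &&
    Nat.ble (k (bk (stp (t b).2 (t b).1)) + 1) (k b)

theorem t1_all : ∀ p : P, innb p = true → (eqb (bk p) (.q 0) = true ∨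
    (tok t1 k1 (bk p) = true ∧ isq (bk (stp (t1 (bk p)).2 (t1 (bk p)).1)) = true)) := by
  decide

theorem t2_all : ∀ p : P, innb p = true → (eqb (bk p) (.e .L) = true ∨
    (tok t2 k2 (bk p) = true ∧ isq (bk (stp (t2 (bk p)).2 (t2 (bk p)).1)) = false)) := by
  decide

section
variable {S : P → Prop}

/-- one step inside `S` -/
def Stp (S : P → Prop) (a b : P) : Prop := S a ∧ S b ∧ ∃ d, onS d a = false ∧ b = stp d a

theorem Stp.symm' {a b : P} (h : Stp S a b) : Stp S b a := by
  obtain ⟨ha, hb, d, h1, rfl⟩ := h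
  exact ⟨hb, ha, d.op, by rw [onS_op_stp, h1], by rw [stp_op_stp]⟩

theorem rtg_symm {a b : P} (h : Relation.ReflTransGen (Stp S) a b) :
    Relation.ReflTransGen (Stp S) b a := by
  induction h with
  | refl => exact .refl
  | tail _ h2 ih => exact Relation.ReflTransGen.head h2.symm' ih

/-- connection to the chosen cell of the brick -/
theorem to_rep {G : Bk → Prop} (hS : ∀ p, innb p = true → G (bk p) → S p) (n : ℕ) :
    ∀ p, ds p = n → innb p = true → G (bk p) →
    Relation.ReflTransGen (Stp S) p (rep (bk p)) := by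
  induction n using Nat.strong_induction_on with
  | _ n ih =>
    intro p hn hp hG
    rcases (wk_all p hp).2 with h | h
    · rw [← h]
    · have : ∃ d, wk p d = true := by
        simp only [Bool.or_eq_true] at h
        rcases h with ((h | h) | h) | h
        exacts [⟨_, h⟩, ⟨_, h⟩, ⟨_, h⟩, ⟨_, h⟩]
      obtain ⟨d, hd⟩ := this
      simp only [wk, Bool.and_eq_true, Nat.ble_eq] at hd
      obtain ⟨⟨h1, h2⟩, h3⟩ := hd
      have e := (eqb_iff _ _).1 h2
      have hG' : G (bk (stp d p)) := by rw [e]; exact hG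
      have := ih (ds (stp d p)) (by omega) (stp d p) rfl h1 hG'
      rw [e] at this
      exact Relation.ReflTransGen.head
        ⟨hS p hp hG, hS _ h1 hG', d, (innb_iff p).1 hp d, rfl⟩ this

theorem to_hub {G : Bk → Prop} (hS : ∀ p, innb p = true → G (bk p) → S p) (t : Bk → P × Side)
    (k : Bk → ℕ) (hub : Bk) (ht : ∀ p, innb p = true → G (bk p) → (eqb (bk p) hub = true ∨
      (tok t k (bk p) = true ∧ G (bk (stp (t (bk p)).2 (t (bk p)).1))))) (n : ℕ) :
    ∀ p, k (bk p) = n → innb p = true → G (bk p) →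
    Relation.ReflTransGen (Stp S) p (rep hub) := by
  induction n using Nat.strong_induction_on with
  | _ n ih =>
    intro p hn hp hG
    rcases ht p hp hG with h | ⟨h, hG'⟩
    · rw [← (eqb_iff _ _).1 h]
      exact to_rep hS _ p rfl hp hG
    · simp only [tok, Bool.and_eq_true, Nat.ble_eq] at h
      obtain ⟨⟨⟨h1, h2⟩, h3⟩, h4⟩ := h
      have e := (eqb_iff _ _).1 h2
      have hG1 : G (bk (t (bk p)).1) := by rw [e]; exact hG
      have a1 := to_rep hS _ p rfl hp hG
      have a2 := to_rep hS _ (t (bk p)).1 rfl h1 hG1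
      rw [e] at a2
      have a3 := ih _ (by omega) (stp (t (bk p)).2 (t (bk p)).1) rfl h3 hG'
      refine a1.trans ((rtg_symm a2).trans (Relation.ReflTransGen.head ?_ a3))
      exact ⟨hS _ h1 hG1, hS _ h3 hG', _, (innb_iff _).1 h1 _, rfl⟩

end

theorem in_aux1 : ∀ (d : Side) (p : P), onS d p = true → onS d.op p = false := by decide

theorem in_aux2 : ∀ (d d' : Side) (p : P), onS d p = true → onS d' (stp d.op p) = true →
    onS d' p = true ∧ onS d (stp d.op p) = false := by decide

theorem in_aux3 : ∀ (d : Side) (p : P), onS d p = true → onS d (stp d.op p) = false ∧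
    onS d.op (stp d.op p) = false := by decide

/-- `hd d`: side `d` is removed; `cn h k`: the corner cell is removed -/
theorem conn (hf : Proper f) (c : Sl) (hd : Side → Prop) (cn : Side → Side → Prop)
    (x0 x1 y0 y1 : ℕ) (h1 : x0 ≤ 1) (h2 : 7 ≤ x1) (h3 : y0 ≤ 1) (h4 : 7 ≤ y1) :
    Conn (fun p => trim x0 x1 y0 y1 p ∧ f (bk p) ≠ c ∧ (∀ d, onS d p = true → ¬ hd d) ∧
      (∀ h k, h.hor = true → k.hor = false → onS h p = true → onS k p = true → ¬ cn h k)) := by
  set S : P → Prop := fun p => trim x0 x1 y0 y1 p ∧ f (bk p) ≠ c ∧ (∀ d, onS d p = true → ¬ hd d) ∧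
      (∀ h k, h.hor = true → k.hor = false → onS h p = true → onS k p = true → ¬ cn h k) with hSdef
  have hS : ∀ p, innb p = true → f (bk p) ≠ c → S p := by
    intro p hp hc
    have hi := (innb_iff p).1 hp
    have hL := hi .L
    have hR := hi .R
    have hB := hi .B
    have hU := hi .U
    simp only [onS, decide_eq_false_iff_not] at hL hR hB hU
    refine ⟨?_, hc, fun d h => ?_, fun h k _ _ hh _ => ?_⟩
    · have e1 : p.1.val ≠ 0 := fun e => hL (Fin.ext e)
      have e2 : p.1.val ≠ 8 := fun e => hR (Fin.ext e)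
      have e3 : p.2.val ≠ 0 := fun e => hB (Fin.ext e)
      have e4 : p.2.val ≠ 8 := fun e => hU (Fin.ext e)
      have := p.1.isLt
      have := p.2.isLt
      unfold trim
      omega
    · rw [hi d] at h; exact absurd h (by decide)
    · rw [hi h] at hh; exact absurd hh (by decide)
  -- a step away from a side
  have hstep : ∀ d p, onS d p = true → S p → S (stp d.op p) ∧ Stp S p (stp d.op p) := by
    intro d p hdp hp
    have hs : S (stp d.op p) := by
      obtain ⟨a1, a2, a3, a4⟩ := hp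
      refine ⟨?_, ?_, ?_, ?_⟩
      · unfold trim at a1 ⊢
        cases d <;> simp only [onS, decide_eq_true_eq] at hdp <;>
          simp only [Side.op, stp, hdp] <;> rw [hdp] at a1 <;> simp at a1 ⊢ <;> omega
      · rw [bk_thick d p hdp]; exact a2
      · intro d' h'
        exact a3 d' (in_aux2 d d' p hdp h').1
      · intro h k hh hk e1 e2
        exact a4 h k hh hk (in_aux2 d h p hdp e1).1 (in_aux2 d k p hdp e2).1
    exact ⟨hs, hp, hs, d.op, in_aux1 d p hdp, rfl⟩
  -- every cell is connected to an inner cell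
  have hin : ∀ p, S p → ∃ q, innb q = true ∧ S q ∧ Relation.ReflTransGen (Stp S) p q := by
    intro p hp
    have s1 : ∃ q, onS .L q = false ∧ onS .R q = false ∧ S q ∧ Relation.ReflTransGen (Stp S) p q := by
      cases hL : onS .L p with
      | true =>
        obtain ⟨b1, b2⟩ := hstep .L p hL hp
        exact ⟨_, (in_aux3 .L p hL).1, (in_aux3 .L p hL).2, b1, .single b2⟩
      | false =>
        cases hR : onS .R p with
        | true =>
          obtain ⟨b1, b2⟩ := hstep .R p hR hp
          exact ⟨_, (in_aux3 .R p hR).2, (in_aux3 .R p hR).1, b1, .single b2⟩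
        | false => exact ⟨p, hL, hR, hp, .refl⟩
    obtain ⟨q, q1, q2, q3, q4⟩ := s1
    have key : ∀ (d d' : Side) (p : P), onS d p = true → onS d' p = false →
        onS d' (stp d.op p) = false := by
      intro d d' p a b
      cases hb : onS d' (stp d.op p) with
      | false => rfl
      | true => rw [(in_aux2 d d' p a hb).1] at b; exact absurd b (by decide)
    cases hB : onS .B q with
    | true =>
      obtain ⟨b1, b2⟩ := hstep .B q hB q3
      refine ⟨_, ?_, b1, q4.trans (.single b2)⟩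
      unfold innb
      rw [key .B .L q hB q1, key .B .R q hB q2, (in_aux3 .B q hB).1]
      have := (in_aux3 .B q hB).2
      simp only [Side.op] at this
      simp [Side.op, this]
    | false =>
      cases hU : onS .U q with
      | true =>
        obtain ⟨b1, b2⟩ := hstep .U q hU q3
        refine ⟨_, ?_, b1, q4.trans (.single b2)⟩
        unfold innb
        rw [key .U .L q hU q1, key .U .R q hU q2, (in_aux3 .U q hU).1]
        have := (in_aux3 .U q hU).2
        simp only [Side.op] at this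
        simp [Side.op, this]
      | false => exact ⟨q, by simp [innb, q1, q2, hB, hU], q3, q4⟩
  -- all inner cells are connected to one cell
  have hhub : ∃ hub, ∀ p, innb p = true → f (bk p) ≠ c → Relation.ReflTransGen (Stp S) p (rep hub) := by
    by_cases hq : ∃ i, f (.q i) = c
    · obtain ⟨i, hi⟩ := hq
      have hr : ∀ b, isq b = false → f b ≠ c := by
        intro b hb
        rw [← hi]
        cases b with
        | v h k => exact (hf.qv i h k).symm
        | e d => exact (hf.qe i d).symm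
        | q j => simp [isq] at hb
      refine ⟨.e .L, fun p hp hc => to_hub (G := fun b => f b ≠ c) hS t2 k2 (.e .L) ?_ _ p rfl hp hc⟩
      intro p hp _
      exact (t2_all p hp).imp id (fun h => ⟨h.1, hr _ h.2⟩)
    · push Not at hq
      have hr : ∀ b, isq b = true → f b ≠ c := by
        intro b hb
        cases b with
        | v h k => simp [isq] at hb
        | e d => simp [isq] at hb
        | q j => exact hq j
      refine ⟨.q 0, fun p hp hc => to_hub (G := fun b => f b ≠ c) hS t1 k1 (.q 0) ?_ _ p rfl hp hc⟩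
      intro p hp _
      exact (t1_all p hp).imp id (fun h => ⟨h.1, hr _ h.2⟩)
  obtain ⟨hub, hhub⟩ := hhub
  intro p q hp hq
  obtain ⟨p', p1, p2, p3⟩ := hin p hp
  obtain ⟨q', q1, q2, q3⟩ := hin q hq
  exact (p3.trans (hhub p' p1 p2.2.1)).trans (rtg_symm (q3.trans (hhub q' q1 q2.2.1)))

end Pool.Agent.VHW
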