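import Pool.Agent.VHW.Der
import Pool.Agent.VHW.TplFacts

/-!
# VHW/Low : common slots (helper26, `MP_720b7c_al`)

`Lo θ c` : the header in slot `c` is carried by all blocks (2 or 4) which touch the block across lines.
Everything is stated in terms of the raw data (`ln`, `al`, `be`, `di`) under `Inv θ`.
-/

set_option autoImplicit false

namespace Pool.Agent.VHW

open Pool.Agent.VHS

/-- common slots, raw form of `low` -/
structure Lo (θ : Raw) (c : Sl) : Prop where
  m : c ≠ θ.m
  be : ∀ d, θ.ln d = true → θ.be d ≠ θ.al d → c ≠ θ.be d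
  di : ∀ d e, d.hor ≠ e.hor → θ.ln d = true → θ.ln e = true → ∀ x, θ.di d e = some x →
    x ≠ θ.al d → c ≠ x

theorem lo_mis (θ : Raw) : ¬ Lo θ θ.m := fun h => h.m rfl

theorem lo_par {θ : Raw} (h : Inv θ) : Lo θ θ.par where
  m := h.pm
  be d _ hb := (h.bp d hb).symm
  di d e hde hd he x hx hxa := by
    intro hp
    exact hxa ((h.eqc d e x hde hd he hx).2.2.1 hp.symm)

/-- the children at interior positions -/
theorem lo_inn (θ : Raw) {p : P} (c : Sl) (hp : inn p) : Lo (sg θ p) c ↔ c ≠ θ.nm p := by
  constructor
  · intro h; exact h.m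
  · intro h
    refine ⟨h, ?_, ?_⟩
    · intro d hd
      exact absurd (hd.symm.trans (hp d)) (by simp)
    · intro d e _ hd
      exact absurd (hd.symm.trans (hp d)) (by simp)

/-- at an equal level corner the two line slots agree -/
theorem al_corner {θ : Raw} (h : Inv θ) {d e : Side} {x : Sl} (hde : d.hor ≠ e.hor)
    (hx : θ.di d e = some x) : θ.al d = θ.al e := by
  cases hd : θ.ln d with
  | true =>
    cases he : θ.ln e with
    | true => exact (h.eqc d e x hde hd he hx).1
    | false =>
      have := (h.mix d e hde hd he).1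
      rw [hx] at this; exact absurd this (by simp)
  | false =>
    cases he : θ.ln e with
    | true =>
      have := (h.mix e d (Ne.symm hde) he hd).1
      rw [h.dis, hx] at this; exact absurd this (by simp)
    | false => rw [h.int d hd, h.int e he]

theorem sg_al {θ : Raw} {p : P} {d : Side} (hd : onS d p = true) : (sg θ p).al d = θ.al d := by
  simp [sg, hd]

theorem sg_be {θ : Raw} {p : P} {d : Side} (hd : onS d p = true) : (sg θ p).be d = θ.be d := by
  simp [sg, hd]

theorem sg_di {θ : Raw} {p : P} {d e : Side} (hde : d.hor ≠ e.hor) (hd : onS d p = true)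
    (he : onS e p = true) : (sg θ p).di d e = θ.di d e := by
  simp [sg, hd, he, hde]

/-- the common slots of a child -/
theorem lo_sg_iff {θ : Raw} (h : Inv θ) (p : P) (c : Sl) : Lo (sg θ p) c ↔
    θ.name (bk p) ≠ c ∧ (∀ d, onS d p = true → ¬ (θ.be d ≠ θ.al d ∧ c = θ.be d)) ∧
    (∀ d e, d.hor = true → e.hor = false → onS d p = true → onS e p = true →
      ¬ ∃ x, θ.di d e = some x ∧ x ≠ θ.al d ∧ c = x) := by
  constructor
  · intro hl
    refine ⟨fun e => hl.m e.symm, ?_, ?_⟩
    · rintro d hd ⟨h1, h2⟩
      exact hl.be d hd (by rw [sg_al hd, sg_be hd]; exact h1) (by rw [sg_be hd]; exact h2)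
    · rintro d e hd' he' hd he ⟨x, hx, hxa, hc⟩
      have hde : d.hor ≠ e.hor := by rw [hd', he']; decide
      exact hl.di d e hde hd he x (by rw [sg_di hde hd he]; exact hx) (by rw [sg_al hd]; exact hxa) hc
  · rintro ⟨h1, h2, h3⟩
    refine ⟨fun e => h1 e.symm, ?_, ?_⟩
    · intro d hd hb hc
      have hd' : onS d p = true := hd
      rw [sg_be hd'] at hb hc
      rw [sg_al hd'] at hb
      exact h2 d hd ⟨hb, hc⟩
    · intro d e hde hd he x hx hxa hc
      have hd' : onS d p = true := hd
      have he' : onS e p = true := he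
      rw [sg_di hde hd' he'] at hx
      rw [sg_al hd'] at hxa
      cases hh : d.hor with
      | true =>
        exact h3 d e hh (by rw [hh] at hde; simpa using hde) hd' he' ⟨x, hx, hxa, hc⟩
      | false =>
        refine h3 e d (by rw [hh] at hde; simpa using hde) hh he' hd' ⟨x, ?_, ?_, hc⟩
        · rw [h.dis]; exact hx
        · rw [← al_corner h hde hx]; exact hxa

theorem onS_thin {d : Side} {p : P} (h : onS d.op p = true) : onS d (stp d p) = false := by
  revert d p; decide

theorem be_ne_corner {θ : Raw} (h : Inv θ) {d e : Side} (hde : d.hor ≠ e.hor)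
    (h1 : θ.be d ≠ θ.al d) : θ.be d ≠ θ.be e := by
  intro he
  cases hd : θ.ln d with
  | true =>
    cases hl : θ.ln e with
    | true =>
      cases hx : θ.di d e with
      | none => exact (h.neq d e hde hd hl hx).2.2.2 he
      | some x => exact h1 ((h.eqc d e x hde hd hl hx).2.2.2.1 he)
    | false => exact (h.mix d e hde hd hl).2.2 he.symm
  | false =>
    cases hl : θ.ln e with
    | true => exact (h.mix e d (Ne.symm hde) hl hd).2.2 he
    | false =>
      rw [h.int d hd] at h1
      exact h1 ((h.ii d e hde hd hl).2 he)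

theorem lo_straight {θ : Raw} (h : Inv θ) {d d' : Side} (hh : d.hor = true) (hh' : d'.hor = false)
    {p : P} {c : Sl} (hd : onS d p = false) (hd' : onS d' p = false) (hl : Lo (sg θ p) c) :
    Lo (sg θ (stp d p)) c ∨ Lo (sg θ (stp d' p)) c := by
  have hde : d.hor ≠ d'.hor := by rw [hh, hh']; decide
  rw [lo_sg_iff h] at hl
  obtain ⟨l1, l2, l3⟩ := hl
  have l1' : θ.nm p ≠ c := l1
  -- failure across `e` (any of the two sides) has one of three reasons
  have key : ∀ e e' : Side, e.hor ≠ e'.hor → onS e p = false → onS e' p = false →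
      ¬ Lo (sg θ (stp e p)) c →
      θ.nm (stp e p) = c ∨ (onS e (stp e p) = true ∧ θ.be e ≠ θ.al e ∧ c = θ.be e) ∨
        (onS e (stp e p) = true ∧ onS e'.op p = true) := by
    intro e e' hee he he' hn
    rw [lo_sg_iff h] at hn
    by_contra hcon
    rw [not_or, not_or] at hcon
    obtain ⟨c1, c2, c3⟩ := hcon
    apply hn
    have side : ∀ f, f ≠ e → onS f (stp e p) = true → e.hor ≠ f.hor ∧ onS f p = true := by
      intro f hf hfs
      rcases cases3 e f with rfl | rfl | hef
      · exact absurd rfl hf
      · rw [onS_op_stp', he] at hfs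
        exact absurd hfs (by simp)
      · rw [onS_stp_perp (Ne.symm hef)] at hfs
        exact ⟨hef, hfs⟩
    have side2 : ∀ f, e.hor ≠ f.hor → onS f p = true → f = e'.op := by
      intro f hef hf
      rcases cases3 e' f with rfl | rfl | hef'
      · rw [he'] at hf; exact absurd hf (by simp)
      · rfl
      · exfalso
        revert hee hef hef'
        cases e.hor <;> cases e'.hor <;> cases f.hor <;> simp
    refine ⟨c1, ?_, ?_⟩
    · intro f hf
      by_cases hfe : f = e
      · subst hfe
        exact fun x => c2 ⟨hf, x⟩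
      · exact l2 f (side f hfe hf).2
    · intro f g hf' hg' hf hg hx
      by_cases hfe : f = e
      · have hge : g ≠ e := by
          rintro rfl
          rw [hfe, hg'] at hf'; exact absurd hf' (by simp)
        obtain ⟨s1, s2⟩ := side g hge hg
        rw [hfe] at hf
        exact c3 ⟨hf, by rw [← side2 g s1 s2]; exact s2⟩
      · obtain ⟨s1, s2⟩ := side f hfe hf
        by_cases hge : g = e
        · rw [hge] at hg
          exact c3 ⟨hg, by rw [← side2 f s1 s2]; exact s2⟩
        · obtain ⟨t1, t2⟩ := side g hge hg
          exact l3 f g hf' hg' s2 t2 hx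
  -- a name across `e` which is new excludes the hidden slot of `e'`
  have key2 : ∀ e e' : Side, e.hor ≠ e'.hor → θ.nm (stp e p) = c → onS e' (stp e' p) = true →
      θ.be e' ≠ c := by
    intro e e' hee he he' hb
    have h1 : onS e' (stp e (stp e' p)) = true := by rw [onS_stp_perp (Ne.symm hee)]; exact he'
    have h2 := thick θ h1
    rw [stp_comm e e' p] at h2 h1
    simp only [stp_op_stp] at h2
    have h3 := (ring_ne h.toSym h1).2.2
    rw [← h2, he] at h3
    exact h3 hb.symm
  have key3 : ∀ e, onS e.op p = true → θ.nm (stp e p) = c → False := by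
    intro e he hc
    have := thick θ he
    rw [Side.op_op, hc] at this
    exact l1' this.symm
  by_contra hcon
  rw [not_or] at hcon
  have k1 := key d d' hde hd hd' hcon.1
  have k2 := key d' d (Ne.symm hde) hd' hd hcon.2
  rcases k1 with a | ⟨a1, a2, a3⟩ | ⟨a1, a2⟩
  · rcases k2 with b | ⟨b1, b2, b3⟩ | ⟨b1, b2⟩
    · have := tjn h.toSym hde hd hd' (a.trans b.symm)
      rw [a] at this
      exact l1' this.symm
    · exact key2 d d' hde a b1 b3.symm
    · exact key3 d b2 a
  · rcases k2 with b | ⟨b1, b2, b3⟩ | ⟨b1, b2⟩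
    · exact key2 d' d (Ne.symm hde) b a1 a3.symm
    · exact be_ne_corner h hde a2 (a3.symm.trans b3)
    · rw [onS_thin b2] at a1; exact absurd a1 (by simp)
  · rcases k2 with b | ⟨b1, b2, b3⟩ | ⟨b1, b2⟩
    · exact key3 d' a2 b
    · rw [onS_thin a2] at b1; exact absurd b1 (by simp)
    · rw [onS_thin b2] at a1; exact absurd a1 (by simp)

/-- the line header is common -/
theorem lo_al {θ : Raw} (h : Inv θ) {d : Side} (hd : θ.ln d = true) : Lo θ (θ.al d) where
  m := (h.lnm d hd).1
  be := by
    intro e he hb hc
    rcases cases3 d e with rfl | rfl | hde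
    · exact hb hc.symm
    · rw [(h.far d hd).1] at he; exact absurd he (by simp)
    · cases hx : θ.di d e with
      | none => exact (h.neq d e hde hd he hx).2.1 hc
      | some x =>
        have := (h.eqc d e x hde hd he hx).1
        exact hb (by rw [← this, ← hc])
  di := by
    intro e f hef he hf x hx hxa hc
    have hla := al_corner h hef hx
    -- one of the two sides is `d`
    rcases cases3 d e with rfl | rfl | hde
    · exact hxa hc.symm
    · rw [(h.far d hd).1] at he; exact absurd he (by simp)
    · rcases cases3 d f with rfl | rfl | hdf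
      · exact hxa (by rw [hla]; exact hc.symm)
      · rw [(h.far d hd).1] at hf; exact absurd hf (by simp)
      · revert hef hde hdf
        cases d.hor <;> cases e.hor <;> cases f.hor <;> simp

theorem opp_ln_op {θ : Raw} {d : Side} (hd : θ.ln d = true) : (opp d θ).ln d.op = true := by
  simp only [opp, rho_op]; exact hd

theorem opp_ln_self {θ : Raw} (h : Inv θ) {d : Side} (hd : θ.ln d = true) :
    (opp d θ).ln d = false := by
  simp only [opp, rho_self]; exact (h.far d hd).1

theorem opp_ln_perp {θ : Raw} {d e : Side} (hde : d.hor ≠ e.hor) :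
    (opp d θ).ln e = θ.ln e := by
  simp only [opp, rho_perp hde]

theorem opp_al_op {θ : Raw} {d : Side} : (opp d θ).al d.op = θ.be d := by simp [opp]

theorem opp_be_op {θ : Raw} {d : Side} : (opp d θ).be d.op = θ.al d := by simp [opp]

theorem opp_al_perp {θ : Raw} {d e : Side} (hde : d.hor ≠ e.hor) : (opp d θ).al e =
    if (θ.di d e).isSome then θ.be d else θ.al e := by
  have := ne_op_of_perp hde
  simp only [opp, this.1, this.2, if_false]

theorem opp_be_perp {θ : Raw} {d e : Side} (hde : d.hor ≠ e.hor) : (opp d θ).be e =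
    (θ.di d e).getD (θ.be e) := by
  have := ne_op_of_perp hde
  simp only [opp, this.1, this.2, if_false]

theorem opp_di_op {θ : Raw} {d e : Side} (hde : d.hor ≠ e.hor) : (opp d θ).di d.op e =
    (θ.di d e).map (fun _ => θ.be e) := by
  have h3 : ¬ d.op.hor = e.hor := by simpa using hde
  simp only [opp, h3, if_false, if_true]

theorem opp_di_op' {θ : Raw} (h : Inv θ) {d e : Side} (hde : d.hor ≠ e.hor) :
    (opp d θ).di e d.op = (θ.di d e).map (fun _ => θ.be e) := by
  rw [(sym_opp h.toSym d).dis, opp_di_op hde]

/-- reduction of `Lo (opp d θ)` to the side `d.op` and the two perpendicular sides -/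
theorem lo_opp_iff {θ : Raw} (h : Inv θ) {d : Side} (hd : θ.ln d = true) (c : Sl) :
    Lo (opp d θ) c ↔ c ≠ θ.m ∧ (θ.al d ≠ θ.be d → c ≠ θ.al d) ∧
      (∀ e, d.hor ≠ e.hor → θ.ln e = true →
        (θ.di d e = none → θ.be e ≠ θ.al e → c ≠ θ.be e) ∧
        (∀ x, θ.di d e = some x → (x ≠ θ.be d → c ≠ x) ∧ (θ.be e ≠ θ.be d → c ≠ θ.be e))) := by
  constructor
  · intro hl
    refine ⟨hl.m, ?_, ?_⟩
    · intro h1
      have := hl.be d.op (opp_ln_op hd)
      rw [opp_al_op, opp_be_op] at this
      exact this h1
    · intro e hde he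
      have he' : (opp d θ).ln e = true := by rw [opp_ln_perp hde]; exact he
      refine ⟨?_, ?_⟩
      · intro hx
        have := hl.be e he'
        rw [opp_al_perp hde, opp_be_perp hde, hx] at this
        exact this
      · intro x hx
        constructor
        · have := hl.be e he'
          rw [opp_al_perp hde, opp_be_perp hde, hx] at this
          exact this
        · have := hl.di d.op e (by simpa using hde) (opp_ln_op hd) he' (θ.be e)
            (by rw [opp_di_op hde, hx]; rfl)
          rw [opp_al_op] at this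
          exact this
  · rintro ⟨h1, h2, h3⟩
    refine ⟨h1, ?_, ?_⟩
    · intro e he
      rcases cases3 d e with rfl | rfl | hde
      · rw [opp_ln_self h hd] at he; exact absurd he (by simp)
      · rw [opp_al_op, opp_be_op]; exact h2
      · rw [opp_ln_perp hde] at he
        rw [opp_al_perp hde, opp_be_perp hde]
        cases hx : θ.di d e with
        | none => exact (h3 e hde he).1 hx
        | some x => exact ((h3 e hde he).2 x hx).1
    · intro e f hef he hf x hx hxa
      rcases cases3 d e with rfl | rfl | hde
      · rw [opp_ln_self h hd] at he; exact absurd he (by simp)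
      · have hdf : d.hor ≠ f.hor := by simpa using hef
        rw [opp_ln_perp hdf] at hf
        rw [opp_di_op hdf] at hx
        rw [opp_al_op] at hxa
        cases hy : θ.di d f with
        | none => rw [hy] at hx; exact absurd hx (by simp)
        | some y =>
          rw [hy] at hx
          simp only [Option.map_some, Option.some.injEq] at hx
          subst hx
          exact ((h3 f hdf hf).2 y hy).2 hxa
      · rcases cases3 d f with rfl | rfl | hdf
        · rw [opp_ln_self h hd] at hf; exact absurd hf (by simp)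
        · rw [opp_ln_perp hde] at he
          rw [opp_di_op' h hde] at hx
          rw [opp_al_perp hde] at hxa
          cases hy : θ.di d e with
          | none => rw [hy] at hx; exact absurd hx (by simp)
          | some y =>
            rw [hy] at hx hxa
            simp only [Option.map_some, Option.some.injEq, Option.isSome_some, if_true] at hx hxa
            subst hx
            exact ((h3 e hde he).2 y hy).2 hxa
        · exfalso
          revert hef hde hdf
          cases d.hor <;> cases e.hor <;> cases f.hor <;> simp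

theorem opp_lo {θ : Raw} (h : Inv θ) {d : Side} (hd : θ.ln d = true) {c : Sl}
    (hca : c ≠ θ.al d) (hcb : c ≠ θ.be d) : Lo (opp d θ) c ↔ Lo θ c := by
  rw [lo_opp_iff h hd]
  constructor
  · rintro ⟨h1, h2, h3⟩
    refine ⟨h1, ?_, ?_⟩
    · intro e he hb
      rcases cases3 d e with rfl | rfl | hde
      · exact hcb
      · rw [(h.far d hd).1] at he; exact absurd he (by simp)
      · cases hx : θ.di d e with
        | none => exact (h3 e hde he).1 hx hb
        | some x =>
          by_cases h4 : θ.be e = θ.be d
          · rw [h4]; exact hcb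
          · exact ((h3 e hde he).2 x hx).2 h4
    · have main : ∀ f, d.hor ≠ f.hor → θ.ln f = true → ∀ x, θ.di d f = some x → c ≠ x := by
        intro f hdf hf x hx
        by_cases h4 : x = θ.be d
        · rw [h4]; exact hcb
        · exact ((h3 f hdf hf).2 x hx).1 h4
      intro e f hef he hf x hx _
      rcases cases3 d e with rfl | rfl | hde
      · exact main f hef hf x hx
      · rw [(h.far d hd).1] at he; exact absurd he (by simp)
      · rcases cases3 d f with rfl | rfl | hdf
        · exact main e hde he x (by rw [h.dis]; exact hx)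
        · rw [(h.far d hd).1] at hf; exact absurd hf (by simp)
        · exfalso
          revert hef hde hdf
          cases d.hor <;> cases e.hor <;> cases f.hor <;> simp
  · intro hl
    refine ⟨hl.m, fun _ => hca, ?_⟩
    intro e hde he
    refine ⟨fun _ hb => hl.be e he hb, ?_⟩
    intro x hx
    constructor
    · intro _
      by_cases h4 : x = θ.al d
      · rw [h4]; exact hca
      · exact hl.di d e hde hd he x hx h4
    · intro _
      by_cases h4 : θ.be e = θ.al e
      · rw [h4, ← (h.eqc d e x hde hd he hx).1]; exact hca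
      · exact hl.be e he h4

/-- the line header is common on the other side, too -/
theorem lo_opp_be {θ : Raw} (h : Inv θ) {d : Side} (hd : θ.ln d = true) :
    Lo (opp d θ) (θ.be d) := by
  rw [lo_opp_iff h hd]
  refine ⟨(h.lnm d hd).2, fun h1 => h1.symm, ?_⟩
  intro e hde he
  exact ⟨fun hx _ => (h.neq d e hde hd he hx).2.2.2, fun x hx => ⟨fun h1 => h1.symm, fun h1 => h1.symm⟩⟩

/-! ### The statements for `low` -/

theorem hid_ne_iff {θ : Raw} {d : Side} {c : Sl} :
    hid d θ ≠ some c ↔ (θ.be d ≠ θ.al d → c ≠ θ.be d) := by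
  unfold hid
  by_cases h : θ.be d = θ.al d
  · simp [h]
  · simp only [h, if_false, ne_eq, Option.some.injEq, not_false_eq_true, forall_true_left]
    exact ⟨fun h1 h2 => h1 h2.symm, fun h1 h2 => h1 h2.symm⟩

theorem low_iff {θ : Raw} {c : Sl} : low θ c ↔ Lo θ c := by
  constructor
  · rintro ⟨h1, h2, h3⟩
    refine ⟨h1, fun d hd => hid_ne_iff.1 (h2 d hd), ?_⟩
    intro d e hde hd he x hx hxa hc
    subst hc
    exact hxa (h3 d e hde hd he hx)
  · rintro ⟨h1, h2, h3⟩
    refine ⟨h1, fun d hd => hid_ne_iff.2 (h2 d hd), ?_⟩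
    intro d e hde hd he hx
    by_contra hc
    exact h3 d e hde hd he c hx hc rfl

theorem low_mis (θ : Raw) : ¬ low θ θ.m := fun h => h.1 rfl

theorem low_par {θ : Raw} (h : Inv θ) : low θ θ.par := low_iff.2 (lo_par h)

theorem low_hid {θ : Raw} {d : Side} {c : Sl} (hd : θ.ln d = true) (hc : low θ c) :
    hid d θ ≠ some c := hc.2.1 d hd

theorem low_inn {θ : Raw} {p : P} (hp : inn p) (c : Sl) : low (sg θ p) c ↔ c ≠ θ.nm p := by
  rw [low_iff]; exact lo_inn θ c hp

theorem hid_sg {θ : Raw} {d : Side} {p : P} (h : onS d p = true) : hid d (sg θ p) = hid d θ := by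
  simp only [hid, sg_al h, sg_be h]

theorem low_ring {θ : Raw} {d : Side} {p : P} (hp : onlyS d p) (c : Sl) :
    low (sg θ p) c ↔ c ≠ θ.nm p ∧ hid d θ ≠ some c := by
  constructor
  · rintro ⟨h1, h2, -⟩
    refine ⟨h1, ?_⟩
    have := h2 d hp.1
    rwa [hid_sg hp.1] at this
  · rintro ⟨h1, h2⟩
    refine ⟨h1, ?_, ?_⟩
    · intro e he
      have he' : onS e p = true := he
      by_cases hed : e = d
      · subst hed; rw [hid_sg he']; exact h2
      · exact absurd (he'.symm.trans (hp.2 e hed)) (by simp)
    · intro e f hef he hf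
      exfalso
      have he' : onS e p = true := he
      have hf' : onS f p = true := hf
      by_cases hed : e = d
      · have hfd : f ≠ d := by
          rintro rfl
          exact hef (by rw [hed])
        exact absurd (hf'.symm.trans (hp.2 f hfd)) (by simp)
      · exact absurd (he'.symm.trans (hp.2 e hed)) (by simp)

theorem low_straight {θ : Raw} (h : Inv θ) {d e : Side} (hd : d.hor = true) (he : e.hor = false)
    {p : P} {c : Sl} (h1 : onS d p = false) (h2 : onS e p = false) (hl : low (sg θ p) c) :
    low (sg θ (stp d p)) c ∨ low (sg θ (stp e p)) c := by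
  simp only [low_iff] at hl ⊢
  exact lo_straight h hd he h1 h2 hl

theorem opp_low {θ : Raw} (h : Inv θ) {d : Side} (hd : θ.ln d = true) {c : Sl} (h1 : c ≠ θ.al d)
    (h2 : hid d θ ≠ some c) : low (opp d θ) c ↔ low θ c := by
  rw [low_iff, low_iff]
  refine opp_lo h hd h1 ?_
  by_cases hb : θ.be d = θ.al d
  · rw [hb]; exact h1
  · exact hid_ne_iff.1 h2 hb

theorem opp_low_lam {θ : Raw} (h : Inv θ) {d : Side} (hd : θ.ln d = true) :
    low (opp d θ) ((hid d θ).getD (θ.al d)) ↔ low θ (θ.al d) := by
  have e : (hid d θ).getD (θ.al d) = θ.be d := by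
    unfold hid
    by_cases hb : θ.be d = θ.al d
    · simp [hb]
    · simp [hb]
  rw [e, low_iff, low_iff]
  exact ⟨fun _ => lo_al h hd, fun _ => lo_opp_be h hd⟩

/-- connectedness of the carriers of a common slot -/
theorem conn_low {θ : Raw} (h : Inv θ) (c : Sl) (x0 x1 y0 y1 : ℕ) (h1 : x0 ≤ 1) (h2 : 7 ≤ x1)
    (h3 : y0 ≤ 1) (h4 : 7 ≤ y1) : Conn (fun p => trim x0 x1 y0 y1 p ∧ low (sg θ p) c) := by
  have := conn (proper h.toSym) c (fun d => θ.be d ≠ θ.al d ∧ c = θ.be d)
    (fun d e => ∃ x, θ.di d e = some x ∧ x ≠ θ.al d ∧ c = x) x0 x1 y0 y1 h1 h2 h3 h4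
  refine cast ?_ this
  congr 1
  funext p
  rw [low_iff, lo_sg_iff h]

end Pool.Agent.VHW
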