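import Pool.Agent.VHW.Straight
import Pool.Agent.VHW.Low
import Pool.Agent.VHW.Chain

/-!
# VHW/Inst : the skeleton (helper18, `MP_720b7c_al`)
-/

set_option autoImplicit false

namespace Pool.Agent.VHW

open Pool.Agent.VHS

/-- reachable raw types -/
inductive Reach : Raw → Prop
  | rt (n : ℕ) : Reach (rtR n)
  | sg {θ : Raw} (h : Reach θ) (p : P) : Reach (sg θ p)

theorem Reach.inv {θ : Raw} (h : Reach θ) : Inv θ := by
  induction h with
  | rt n => exact rt_inv n
  | sg _ p ih => exact inv_sg ih p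

/-- the opposite block is reachable, and `opp` is involutive -/
theorem reach_opp {θ : Raw} (h : Reach θ) : ∀ d, θ.ln d = true →
    Reach (opp d θ) ∧ opp d.op (opp d θ) = θ := by
  induction h with
  | rt n => intro d hd; exact absurd hd (by simp [rtR])
  | @sg η hη p ih =>
    intro d hd
    have hp : onS d p = true := hd
    have hp' : onS d.op (stp d p) = true := by rw [onS_op_stp']; exact hp
    cases hl : η.ln d with
    | true =>
      obtain ⟨h1, h2⟩ := ih d hl
      rw [opp_sg hη.inv hl hp]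
      refine ⟨h1.sg _, ?_⟩
      have h3 : (opp d η).ln d.op = true := by simp only [opp, rho_op]; exact hl
      rw [opp_sg h1.inv h3 hp', h2]
      simp
    | false =>
      cases hη with
      | rt n =>
        rw [rt_opp n hp]
        refine ⟨(Reach.rt n).sg _, ?_⟩
        rw [rt_opp n hp']
        simp
      | @sg ζ hζ q =>
        have hq : onS d q = false := hl
        have hq' : onS d.op (stp d q) = false := by rw [onS_op_stp']; exact hq
        rw [sib_sg hζ.inv hq hp]
        refine ⟨(hζ.sg _).sg _, ?_⟩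
        rw [sib_sg hζ.inv hq' hp']
        simp

/-- types of blocks -/
def Ty : Type := {θ : Raw // Reach θ}

theorem finite_Raw : Finite Raw := by
  let F : Raw → (Sl × Sl × (Side → Bool) × (Side → Sl) × (Side → Sl) × (Side → Side → Option Sl) ×
      (Side → Side → Option Sl) × (J → J → Bool)) :=
    fun θ => (θ.m, θ.par, θ.ln, θ.al, θ.be, θ.di, θ.gam, θ.R)
  apply Finite.of_injective F
  intro a b h
  simp only [F, Prod.mk.injEq] at h
  exact Raw.ext h.1 h.2.1 h.2.2.1 h.2.2.2.1 h.2.2.2.2.1 h.2.2.2.2.2.1 h.2.2.2.2.2.2.1 h.2.2.2.2.2.2.2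

theorem finite_Ty : Finite Ty := by
  have := finite_Raw
  exact Subtype.finite

/-- opposite type -/
noncomputable def oppT (d : Side) (θ : Ty) : Ty :=
  if h : θ.1.ln d = true then ⟨opp d θ.1, (reach_opp θ.2 d h).1⟩ else θ

theorem oppT_val {d : Side} {θ : Ty} (h : θ.1.ln d = true) : (oppT d θ).1 = opp d θ.1 := by
  unfold oppT; rw [dif_pos h]

theorem isSome_lam {d : Side} {θ : Raw} : (lam d θ).isSome = true ↔ θ.ln d = true := by
  unfold lam; split_ifs with h <;> simp [h]

theorem isNone_lam {d : Side} {θ : Raw} : (lam d θ).isNone = true ↔ θ.ln d = false := by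
  unfold lam; split_ifs with h <;> simp [h]

theorem getD_hid {d : Side} {θ : Raw} : (hid d θ).getD (θ.al d) = θ.be d := by
  unfold hid; split_ifs with h <;> simp [h]

/-- **the skeleton** -/
noncomputable def skel : Skel where
  Ty := Ty
  Sl := Sl
  finTy := finite_Ty
  finSl := inferInstance
  mis θ := θ.1.m
  par θ := θ.1.par
  nm θ p := θ.1.nm p
  sg θ p := ⟨sg θ.1 p, θ.2.sg p⟩
  lam d θ := lam d θ.1
  hid d θ := hid d θ.1
  new d θ c := new d θ.1 c
  old θ c c' := old θ.1 c c'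
  low θ c := low θ.1 c
  gam d e θ := θ.1.gam d e
  opp := oppT
  mis_sg _ _ := rfl
  par_sg _ _ := rfl
  nm_ne_mis θ p := nm_ne_m θ.1 p
  par_ne_mis θ := θ.2.inv.pm
  lam_ne_mis d θ h := by
    obtain ⟨h1, h2⟩ := lam_eq.1 h
    exact (θ.2.inv.lnm d h1).1 h2
  hid_ne_mis d θ h := by
    obtain ⟨h1, h2⟩ := hid_eq.1 h
    cases hl : θ.1.ln d with
    | true => exact (θ.2.inv.lnm d hl).2 h2
    | false => exact h1 (by rw [h2, θ.2.inv.int d hl])
  hid_ne_par d θ h := by
    obtain ⟨h1, h2⟩ := hid_eq.1 h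
    exact θ.2.inv.bp d h1 h2
  hid_ne_lam d θ l h h' := by
    obtain ⟨h1, h2⟩ := lam_eq.1 h
    obtain ⟨h3, h4⟩ := hid_eq.1 h'
    exact h3 (by rw [h4, h2])
  lam_sg d θ p := by
    have h := θ.2.inv
    show lam d (sg θ.1 p) = _
    unfold lam
    cases hp : onS d p with
    | false => simp [sg, hp]
    | true =>
      cases hl : θ.1.ln d with
      | false => simp [sg, hp, h.int d hl]
      | true => simp [sg, hp]
  hid_sg_line d θ p hp := by
    show hid d (sg θ.1 p) = hid d θ.1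
    simp [hid, sg, hp]
  hid_sg_inn d θ p hp := by
    show hid d (sg θ.1 p) = _
    simp [hid, sg, hp]
  new_sg d θ p c := by
    have h := θ.2.inv
    show new d (sg θ.1 p) c ↔ onS d p = true ∧ c ≠ θ.1.nm p ∧ (lam d θ.1).isSome = true ∧
      (c = θ.1.m ∨ new d θ.1 c)
    rw [isSome_lam]
    unfold new
    show (onS d p = true ∧ c ≠ θ.1.nm p ∧ Rx θ.1.R (phi θ.1 p (.s ((sg θ.1 p).al d))) (phi θ.1 p (.s c)) = true) ↔ _
    by_cases hp : onS d p = true
    · have h1 : (sg θ.1 p).al d = θ.1.al d := by simp [sg, hp]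
      rw [h1]
      cases hl : θ.1.ln d with
      | false => simp [phi, h.int d hl, Rx]
      | true =>
        have h2 := (h.lnm d hl).1
        by_cases hc : c = θ.1.m
        · simp [phi, h2, hc, Rx]
        · simp [phi, h2, hc, Rx]
    · simp [hp]
  new_ne d θ c hc := by
    have h := θ.2.inv
    obtain ⟨h1, h2, h3⟩ := hc
    refine ⟨h2, ?_, ?_⟩
    · intro h4
      have h5 := (lam_eq.1 h4).2
      rw [h5] at h3
      rw [h.ir] at h3
      exact absurd h3 (by simp)
    · intro h4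
      have h5 := (hid_eq.1 h4).2
      rw [← h5, (h.RH d h1).2] at h3
      exact absurd h3 (by simp)
  new_line d θ c hc := isSome_lam.2 hc.1
  old_ne θ c c' hc := by
    refine ⟨hc.1, hc.2.1, ?_⟩
    rintro rfl
    have := hc.2.2
    rw [θ.2.inv.ir] at this
    exact absurd this (by simp)
  old_sg θ p c c' := by
    have h := θ.2.inv
    show (c ≠ θ.1.nm p ∧ c' ≠ θ.1.nm p ∧ Rx θ.1.R (phi θ.1 p (.s c')) (phi θ.1 p (.s c)) = true) ↔
      c ≠ θ.1.nm p ∧ c' ≠ θ.1.nm p ∧ c' ≠ θ.1.m ∧ (c = θ.1.m ∨ old θ.1 c c')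
    unfold old
    by_cases h1 : c' = θ.1.m
    · simp [phi, h1, Rx]
    · by_cases h2 : c = θ.1.m
      · simp [phi, h1, h2, Rx]
      · simp [phi, h1, h2, Rx]
  gam_sg d d' θ p := by
    have e1 := isNone_lam (d := d) (θ := θ.1)
    have e2 := isNone_lam (d := d') (θ := θ.1)
    show (sg θ.1 p).gam d d' = if d.hor ≠ d'.hor ∧ onS d p = true ∧ onS d' p = true then
      (if (lam d θ.1).isNone = true ∧ (lam d' θ.1).isNone = true then some θ.1.par else θ.1.gam d d') else none
    simp only [e1, e2]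
    rfl
  ring_lam d θ p hp h' := by
    have h := θ.2.inv
    exact (ring_ne h.toSym hp).2.1 (lam_eq.1 h').2.symm
  ring_hid d θ p hp h' := by
    have h := θ.2.inv
    exact (ring_ne h.toSym hp).2.2 (hid_eq.1 h').2.symm
  ring_par d θ p hp := (ring_ne θ.2.inv.toSym hp).1
  thick d θ p hp := thick θ.1 hp
  opp_opp d θ hl := by
    have h1 := isSome_lam.1 hl
    have h2 := reach_opp θ.2 d h1
    apply Subtype.ext
    rw [oppT_val, oppT_val h1, h2.2]
    rw [oppT_val h1]
    simp only [opp, rho_op]; exact h1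
  opp_mis d θ hl := by
    show (oppT d θ).1.m = θ.1.m
    rw [oppT_val (isSome_lam.1 hl)]; rfl
  opp_par d θ l hl := by
    obtain ⟨h1, rfl⟩ := lam_eq.1 hl
    have e1 : (oppT d θ).1.par = if θ.1.par = θ.1.al d then (hid d θ.1).getD (θ.1.al d) else θ.1.par := by
      rw [oppT_val h1, getD_hid]; rfl
    by_cases h3 : θ.1.par = θ.1.al d
    · rw [if_pos h3] at e1
      exact e1.trans (if_pos h3).symm
    · rw [if_neg h3] at e1
      exact e1.trans (if_neg h3).symm
  opp_lam d θ l hl := by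
    obtain ⟨h1, h2⟩ := lam_eq.1 hl
    show lam d.op (oppT d θ).1 = some ((hid d θ.1).getD l)
    rw [oppT_val h1, ← h2, getD_hid, lam_eq]
    exact ⟨by simp only [opp, rho_op]; exact h1, by simp [opp]⟩
  opp_hid d θ l hl := by
    obtain ⟨h1, h2⟩ := lam_eq.1 hl
    show hid d.op (oppT d θ).1 = (hid d θ.1).map (fun _ => l)
    rw [oppT_val h1, ← h2]
    unfold hid
    have e1 : (opp d θ.1).be d.op = θ.1.al d := by simp [opp]
    have e2 : (opp d θ.1).al d.op = θ.1.be d := by simp [opp]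
    rw [e1, e2]
    by_cases h3 : θ.1.be d = θ.1.al d
    · simp [h3]
    · simp [h3, Ne.symm h3]
  opp_new d θ c hl := by
    have h1 := isSome_lam.1 hl
    have h := θ.2.inv
    show new d.op (oppT d θ).1 c ↔ new d θ.1 c
    rw [oppT_val h1]
    unfold new
    have e1 : (opp d θ.1).ln d.op = true := by simp only [opp, rho_op]; exact h1
    have e2 : (opp d θ.1).al d.op = θ.1.be d := by simp [opp]
    have e3 : (opp d θ.1).m = θ.1.m := rfl
    rw [e1, e2, e3, h1]
    show (true = true ∧ c ≠ θ.1.m ∧ θ.1.R (psi θ.1 d (.s (θ.1.be d))) (psi θ.1 d (.s c)) = true) ↔ _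
    have e4 : psi θ.1 d (.s (θ.1.be d)) = .s (θ.1.al d) := by simp [psi]
    rw [e4]
    by_cases h3 : c = θ.1.be d
    · subst h3
      rw [e4, h.ir, (h.RH d h1).2]
    · by_cases h4 : c = θ.1.al d
      · subst h4
        have e5 : psi θ.1 d (.s (θ.1.al d)) = .h d := by simp [psi, h3]
        rw [e5, h.ir, (h.RH d h1).1]
      · have e5 : psi θ.1 d (.s c) = .s c := by simp [psi, h3, h4]
        rw [e5]
  opp_old d θ l g hl hg hh := by
    obtain ⟨h1, h2⟩ := lam_eq.1 hl
    have h := θ.2.inv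
    show old (oppT d θ).1 ((hid d θ.1).getD l) g ↔ old θ.1 l g
    rw [oppT_val h1]
    subst h2
    rw [getD_hid]
    unfold old
    show (θ.1.be d ≠ θ.1.m ∧ g ≠ θ.1.m ∧ θ.1.R (psi θ.1 d (.s g)) (psi θ.1 d (.s (θ.1.be d))) = true) ↔ _
    have e4 : psi θ.1 d (.s (θ.1.be d)) = .s (θ.1.al d) := by simp [psi]
    have h3 : g ≠ θ.1.be d := by
      intro h3
      by_cases h4 : θ.1.be d = θ.1.al d
      · exact hg (h3.trans h4)
      · exact hh (hid_eq.2 ⟨h4, h3.symm⟩)
    have e5 : psi θ.1 d (.s g) = .s g := by simp [psi, h3, hg]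
    rw [e4, e5]
    have h5 := h.lnm d h1
    simp [h5.1, h5.2]
  opp_low d θ l c hl h2 h3 := by
    obtain ⟨h1, rfl⟩ := lam_eq.1 hl
    show low (oppT d θ).1 c ↔ low θ.1 c
    rw [oppT_val h1]
    exact opp_low θ.2.inv h1 h2 h3
  opp_low_lam d θ l hl := by
    obtain ⟨h1, rfl⟩ := lam_eq.1 hl
    show low (oppT d θ).1 _ ↔ low θ.1 _
    rw [oppT_val h1]
    exact opp_low_lam θ.2.inv h1
  opp_sg d θ p hl hp := by
    have h1 := isSome_lam.1 hl
    apply Subtype.ext
    rw [oppT_val (show (sg θ.1 p).ln d = true from hp)]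
    show _ = sg (oppT d θ).1 (stp d p)
    rw [oppT_val h1]
    exact opp_sg θ.2.inv h1 hp
  opp_nm d θ p hl hp := by
    have h1 := isSome_lam.1 hl
    show (oppT d θ).1.nm (stp d p) = _
    rw [oppT_val h1]
    exact nm_opp θ.2.inv h1 hp
  sib_sg d η q p hq hp := by
    apply Subtype.ext
    rw [oppT_val (show (sg (sg η.1 q) p).ln d = true from hp)]
    exact sib_sg η.2.inv hq hp
  sib_nm d η q p hq hp := nm_sib η.2.inv.toSym hq hp
  straight d d' θ c hd hd' hc := straight θ.2.inv (by rw [hd, hd']; simp) hc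
  low_mis θ := low_mis θ.1
  low_par θ := low_par θ.2.inv
  low_hid d θ c hl hc := low_hid (isSome_lam.1 hl) hc
  low_inn θ p c hp := low_inn hp c
  low_ring d θ p c hp := low_ring hp c
  low_straight d d' θ p c hd hd' h1 h2 hc := low_straight θ.2.inv hd hd' h1 h2 hc
  cover3 θ c1 c2 c3 := cover3 (proper θ.2.inv.toSym) c1 c2 c3
  coverS d θ c := coverS (proper θ.2.inv.toSym) d c
  conn θ c x0 x1 y0 y1 h1 h2 h3 h4 := by
    have := conn (proper θ.2.inv.toSym) c (fun _ => False) (fun _ _ => False) x0 x1 y0 y1 h1 h2 h3 h4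
    have e : (fun p => trim x0 x1 y0 y1 p ∧ θ.1.nm p ≠ c) =
        (fun p => trim x0 x1 y0 y1 p ∧ θ.1.name (bk p) ≠ c ∧ (∀ d, onS d p = true → ¬ False) ∧
          (∀ h k, h.hor = true → k.hor = false → onS h p = true → onS k p = true → ¬ False)) := by
      funext p
      apply propext
      constructor
      · rintro ⟨a, b⟩
        exact ⟨a, b, fun _ _ x => x, fun _ _ _ _ _ _ x => x⟩
      · rintro ⟨a, b, _⟩
        exact ⟨a, b⟩
    show Conn (fun p => trim x0 x1 y0 y1 p ∧ θ.1.nm p ≠ c)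
    rw [e]
    exact this
  conn_low θ c x0 x1 y0 y1 h1 h2 h3 h4 := conn_low θ.2.inv c x0 x1 y0 y1 h1 h2 h3 h4
  rich θ x0 x1 y0 y1 h1 h2 h3 h4 h5 := rich (proper θ.2.inv.toSym) x0 x1 y0 y1 h1 h2 h3 h4 h5
  rt n := ⟨rtR n, .rt n⟩
  rq := rq
  anc := anc
  lv := lvr
  rq_inn := by
    intro d
    cases d <;> decide
  rt_sg n := Subtype.ext (rt_sg n)
  anc_mis n := anc_mis n
  lv_gt n c _ _ := lv_gt n c
  lv_mis n c h ha := lv_mis n c h ha
  lv_par n := lv_par n
  lv_old n c c' h ha := lv_old n c c' h ha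
  lv_lv n c c' h h' ha ha' hl := lv_lv n c c' h h' ha ha' hl

end Pool.Agent.VHW
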