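import Pool.Agent.VHW.Der
import Pool.Agent.VHW.TplFacts

/-!
# VHW/ConnLow : the cells of a block whose raw type has the common slot `c` are connected
(`MP_720b7c_al`; helper48)
-/

set_option autoImplicit false

namespace Pool.Agent.VHW

open Pool.Agent.VHS

/-- if the diagonal datum is defined then the two line data agree -/
theorem al_eq_of_di {θ : Raw} (h : Inv θ) {d e : Side} {x : Sl} (hde : d.hor ≠ e.hor)
    (hx : θ.di d e = some x) : θ.al d = θ.al e := by
  cases hl : θ.ln d with
  | false =>
    cases hl' : θ.ln e with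
    | false => rw [h.int d hl, h.int e hl']
    | true =>
      have := (h.mix e d (Ne.symm hde) hl' hl).1
      rw [h.dis, hx] at this
      exact absurd this (by simp)
  | true =>
    cases hl' : θ.ln e with
    | false =>
      have := (h.mix d e hde hl hl').1
      rw [hx] at this
      exact absurd this (by simp)
    | true => exact (h.eqc d e x hde hl hl' hx).1

theorem low_sg_iff {θ : Raw} (h : Inv θ) (c : Sl) (p : P) :
    low (sg θ p) c ↔ θ.name (bk p) ≠ c ∧ (∀ d, onS d p = true → ¬ hid d θ = some c) ∧
      (∀ h k : Side, h.hor = true → k.hor = false → onS h p = true → onS k p = true →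
        ¬ (θ.di h k = some c ∧ c ≠ θ.al h)) := by
  have hhid : ∀ d, onS d p = true → hid d (sg θ p) = hid d θ := by
    intro d hd
    simp [hid, sg, hd]
  unfold low
  constructor
  · rintro ⟨h1, h2, h3⟩
    refine ⟨fun e => h1 e.symm, fun d hd e => ?_, ?_⟩
    · exact h2 d hd (by rw [hhid d hd]; exact e)
    · rintro d e hd he h4 h5 ⟨h6, h7⟩
      have hde : d.hor ≠ e.hor := by rw [hd, he]; decide
      have := h3 d e hde h4 h5 (by simp [sg, hde, h4, h5, h6])
      simp only [sg, h4, if_true] at this
      exact h7 this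
  · rintro ⟨h1, h2, h3⟩
    refine ⟨fun e => h1 e.symm, fun d hd e => ?_, ?_⟩
    · have hd' : onS d p = true := hd
      rw [hhid d hd'] at e
      exact h2 d hd' e
    · intro d e hde hd he hx
      have hd' : onS d p = true := hd
      have he' : onS e p = true := he
      simp only [sg, hd', he', if_true, hde, and_self, if_false] at hx ⊢
      by_contra hc
      cases hdh : d.hor with
      | true =>
        exact h3 d e hdh (by rw [hdh] at hde; simpa using hde) hd' he' ⟨hx, hc⟩
      | false =>
        refine h3 e d (by rw [hdh] at hde; simpa using hde) hdh he' hd' ⟨by rw [h.dis]; exact hx, ?_⟩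
        rw [← al_eq_of_di h hde hx]
        exact hc

theorem conn_low {θ : Raw} (h : Inv θ) (c : Sl) (x0 x1 y0 y1 : ℕ) (h1 : x0 ≤ 1) (h2 : 7 ≤ x1)
    (h3 : y0 ≤ 1) (h4 : 7 ≤ y1) : Conn (fun p => trim x0 x1 y0 y1 p ∧ low (sg θ p) c) := by
  have key := conn (proper h.toSym) c (fun d => hid d θ = some c)
    (fun h k => θ.di h k = some c ∧ c ≠ θ.al h) x0 x1 y0 y1 h1 h2 h3 h4
  have e : (fun p => trim x0 x1 y0 y1 p ∧ low (sg θ p) c) =
      (fun p => trim x0 x1 y0 y1 p ∧ θ.name (bk p) ≠ c ∧
        (∀ d, onS d p = true → ¬ hid d θ = some c) ∧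
        (∀ h k : Side, h.hor = true → k.hor = false → onS h p = true → onS k p = true →
          ¬ (θ.di h k = some c ∧ c ≠ θ.al h))) := by
    funext p
    rw [low_sg_iff h c p]
  rw [e]
  exact key

end Pool.Agent.VHW
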