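import Pool.Agent.VHW.Sib

/-!
# VHW/Der : derived functions of raw types (helper18, `MP_720b7c_al`)
-/

set_option autoImplicit false

namespace Pool.Agent.VHW

open Pool.Agent.VHS

/-- slot of the line header -/
def lam (d : Side) (θ : Raw) : Option Sl := if θ.ln d = true then some (θ.al d) else none

/-- the hidden slot -/
def hid (d : Side) (θ : Raw) : Option Sl := if θ.be d = θ.al d then none else some (θ.be d)

/-- younger than the line header -/
def new (d : Side) (θ : Raw) (c : Sl) : Prop :=
  θ.ln d = true ∧ c ≠ θ.m ∧ θ.R (.s (θ.al d)) (.s c) = true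

/-- the header in slot `c'` is older than the header in slot `c` -/
def old (θ : Raw) (c c' : Sl) : Prop := c ≠ θ.m ∧ c' ≠ θ.m ∧ θ.R (.s c') (.s c) = true

/-- common slots -/
def low (θ : Raw) (c : Sl) : Prop :=
  c ≠ θ.m ∧ (∀ d, θ.ln d = true → hid d θ ≠ some c) ∧
    ∀ d e, d.hor ≠ e.hor → θ.ln d = true → θ.ln e = true → θ.di d e = some c → c = θ.al d

end Pool.Agent.VHW
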