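import Pool.Agent.VHW.Names

/-!
# VHW/Inv : invariants of the reachable raw types (helper18, `MP_720b7c_al`)
-/

set_option autoImplicit false

namespace Pool.Agent.VHW

open Pool.Agent.VHS

/-- pairs of bricks which have different names for a proper name map -/
def df : Bk → Bk → Bool
  | .q i, .q j => decide (i ≠ j)
  | .q _, .e _ => true
  | .q _, .v _ _ => true
  | .e _, .q _ => true
  | .v _ _, .q _ => true
  | .e d, .v h k => h.hor && (!k.hor) && (decide (d = h) || decide (d = k))
  | .v h k, .e d => h.hor && (!k.hor) && (decide (d = h) || decide (d = k))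
  | .e _, .e _ => false
  | .v _ _, .v _ _ => false

theorem df_ne {S : Type} {f : Bk → S} (hf : Proper f) {b b' : Bk} (h : df b b' = true) :
    f b ≠ f b' := by
  cases b <;> cases b'
  · simp [df] at h
  · rename_i h' k d
    simp only [df, Bool.and_eq_true, Bool.not_eq_true', Bool.or_eq_true, decide_eq_true_eq] at h
    obtain ⟨⟨h1, h2⟩, h3⟩ := h
    have := hf.ev h' k h1 h2
    rcases h3 with rfl | rfl
    · exact this.1.symm
    · exact this.2.symm
  · exact (hf.qv _ _ _).symm
  · rename_i d h' k
    simp only [df, Bool.and_eq_true, Bool.not_eq_true', Bool.or_eq_true, decide_eq_true_eq] at h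
    obtain ⟨⟨h1, h2⟩, h3⟩ := h
    have := hf.ev h' k h1 h2
    rcases h3 with rfl | rfl
    · exact this.1
    · exact this.2
  · simp [df] at h
  · exact (hf.qe _ _).symm
  · exact hf.qv _ _ _
  · exact hf.qe _ _
  · exact hf.qq _ _ (by simpa [df] using h)

theorem tjb (d e : Side) (p : P) (hde : d.hor ≠ e.hor) (h1 : onS d p = false)
    (h2 : onS e p = false) : bk (stp d p) = bk p ∨ bk (stp e p) = bk p ∨
      df (bk (stp d p)) (bk (stp e p)) = true := by
  revert d e p; decide

/-- T-junctions: if the two neighbours of a cell have the same name then the cell has this name -/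
theorem tjn {θ : Raw} (hs : Sym θ) {d e : Side} {p : P} (hde : d.hor ≠ e.hor)
    (h1 : onS d p = false) (h2 : onS e p = false) (h : θ.nm (stp d p) = θ.nm (stp e p)) :
    θ.nm (stp d p) = θ.nm p := by
  rcases tjb d e p hde h1 h2 with h3 | h3 | h3
  · unfold Raw.nm; rw [h3]
  · rw [h]; unfold Raw.nm; rw [h3]
  · exact absurd h (df_ne (proper hs) h3)

theorem stp_comm (d e : Side) (p : P) : stp d (stp e p) = stp e (stp d p) := by
  revert d e p; decide

theorem onS_stp_perp {d e : Side} (h : d.hor ≠ e.hor) (p : P) : onS d (stp e p) = onS d p := by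
  revert d e p; decide

theorem onS_op {d : Side} {p : P} (h : onS d p = true) : onS d.op p = false := by
  revert d p; decide

theorem onS_op_stp' (d : Side) (p : P) : onS d.op (stp d p) = onS d p := by
  revert d p; decide

theorem onS_stp_of {d : Side} {p : P} (h : onS d p = true) : onS d (stp d p) = false := by
  revert d p; decide

/-- invariants -/
structure Inv (θ : Raw) : Prop extends Sym θ where
  pm : θ.par ≠ θ.m
  lnm : ∀ d, θ.ln d = true → θ.al d ≠ θ.m ∧ θ.be d ≠ θ.m
  int : ∀ d, θ.ln d = false → θ.al d = θ.m
  bp : ∀ d, θ.be d ≠ θ.al d → θ.be d ≠ θ.par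
  far : ∀ d, θ.ln d = true → θ.ln d.op = false ∧ θ.be d.op = θ.m
  ii : ∀ d e, d.hor ≠ e.hor → θ.ln d = false → θ.ln e = false → (θ.di d e).isSome = true ∧
    (θ.be d = θ.be e → θ.be d = θ.m)
  mix : ∀ d e, d.hor ≠ e.hor → θ.ln d = true → θ.ln e = false → θ.di d e = none ∧
    θ.be e ≠ θ.al d ∧ θ.be e ≠ θ.be d
  eqc : ∀ d e x, d.hor ≠ e.hor → θ.ln d = true → θ.ln e = true → θ.di d e = some x →
    θ.al d = θ.al e ∧ x ≠ θ.m ∧ (x = θ.par → x = θ.al d) ∧ (θ.be d = θ.be e → θ.be d = θ.al d) ∧
    ∃ g, θ.gam d e = some g ∧ g ≠ θ.m ∧ g ≠ θ.al d ∧ g ≠ θ.be d ∧ g ≠ θ.be e ∧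
      θ.R (.s g) (.s (θ.al d)) = true
  neq : ∀ d e, d.hor ≠ e.hor → θ.ln d = true → θ.ln e = true → θ.di d e = none →
    θ.al d ≠ θ.al e ∧ θ.al d ≠ θ.be e ∧ θ.be d ≠ θ.al e ∧ θ.be d ≠ θ.be e
  ir : ∀ a, θ.R a a = false
  RH : ∀ d, θ.ln d = true → θ.R (.s (θ.al d)) (.h d) = false ∧
    θ.R (.s (θ.al d)) (.s (θ.be d)) = false

theorem sym_sg {θ : Raw} (hs : Sym θ) (p : P) : Sym (sg θ p) := by
  constructor
  · intro d e
    simp only [sg]
    by_cases h : d.hor = e.hor
    · simp [h]
    · have h' : ¬ e.hor = d.hor := fun x => h x.symm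
      rw [hs.dis d e, stp_comm d e]
      cases onS d p <;> cases onS e p <;> simp [h, h']
  · intro d e
    simp only [sg]
    by_cases h : d.hor = e.hor
    · simp [h]
    · have h' : ¬ e.hor = d.hor := fun x => h x.symm
      rw [hs.gas d e]
      cases onS d p <;> cases onS e p <;> cases θ.ln d <;> cases θ.ln e <;> simp [h, h']

theorem inv_sg {θ : Raw} (h : Inv θ) (p : P) : Inv (sg θ p) where
  toSym := sym_sg h.toSym p
  pm := (nm_ne_m θ p).symm
  lnm := by
    intro d hd
    have hd' : onS d p = true := hd
    simp only [sg, hd', if_true]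
    have := ring_ne h.toSym hd'
    exact ⟨this.2.1.symm, this.2.2.symm⟩
  int := by
    intro d hd
    have hd' : onS d p = false := hd
    simp [sg, hd']
  bp := by
    intro d
    simp only [sg]
    cases hd : onS d p with
    | true =>
      simp only [if_true]
      intro h1
      cases hl : θ.ln d with
      | true => exact (h.lnm d hl).2
      | false => rw [h.int d hl] at h1; exact h1
    | false =>
      simp only [Bool.false_eq_true, if_false]
      intro _
      exact nm_ne_m θ _
  far := by
    intro d hd
    have hd' : onS d p = true := hd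
    refine ⟨onS_op hd', ?_⟩
    simp only [sg, onS_op hd', Bool.false_eq_true, if_false]
    exact thick θ hd'
  ii := by
    intro d e hde hd he
    have hd' : onS d p = false := hd
    have he' : onS e p = false := he
    simp only [sg, hd', he', Bool.false_eq_true, if_false, hde, and_self, or_self, Option.isSome_some,
      true_and]
    exact fun h1 => tjn h.toSym hde hd' he' h1
  mix := by
    intro d e hde hd he
    have hd' : onS d p = true := hd
    have he' : onS e p = false := he
    have h3 := ring_ne h.toSym (d := d) (p := stp e p) (by rw [onS_stp_perp hde]; exact hd')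
    simp only [sg, hd', he', Bool.false_eq_true, if_false, hde, and_false, true_or, if_true, true_and]
    exact ⟨h3.2.1, h3.2.2⟩
  eqc := by
    intro d e x hde hd he hx
    have hd' : onS d p = true := hd
    have he' : onS e p = true := he
    simp only [sg, hd', he', if_true, hde, and_self, if_false, ne_eq, not_false_eq_true] at hx ⊢
    have hc := corner_ne h.toSym hd' he' hde
    have hr := ring_ne h.toSym hd'
    cases hl : θ.ln d with
    | false =>
      cases hl' : θ.ln e with
      | false =>
        have h1 := h.int d hl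
        have h2 := h.int e hl'
        refine ⟨by rw [h1, h2], (hc.1 x hx).symm, fun e => by rw [e, h1], ?_, θ.par, ?_, ?_, ?_, ?_, ?_, ?_⟩
        · rw [h1]; exact (h.ii d e hde hl hl').2
        · simp
        · exact hr.1.symm
        · rw [h1]; exact h.pm
        · by_cases hb : θ.be d = θ.al d
          · rw [hb, h1]; exact h.pm
          · exact (h.bp d hb).symm
        · by_cases hb : θ.be e = θ.al e
          · rw [hb, h2]; exact h.pm
          · exact (h.bp e hb).symm
        · rw [h1]
          simp [phi, h.pm, Rx]
      | true =>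
        have := (h.mix e d (Ne.symm hde) hl' hl).1
        rw [h.dis, hx] at this
        exact absurd this (by simp)
    | true =>
      cases hl' : θ.ln e with
      | false =>
        have := (h.mix d e hde hl hl').1
        rw [hx] at this
        exact absurd this (by simp)
      | true =>
        obtain ⟨a1, a2, a3, a4, g, g1, g2, g3, g4, g5, g6⟩ := h.eqc d e x hde hl hl' hx
        refine ⟨a1, (hc.1 x hx).symm, fun e => absurd e a2, a4, g, ?_, (hc.2 g g1).symm, g3, g4, g5, ?_⟩
        · simpa using g1
        · simp only [phi, g2, if_false, (h.lnm d hl).1, Rx]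
          exact g6
  neq := by
    intro d e hde hd he hx
    have hd' : onS d p = true := hd
    have he' : onS e p = true := he
    simp only [sg, hd', he', if_true, hde, and_self, if_false] at hx ⊢
    cases hl : θ.ln d with
    | false =>
      cases hl' : θ.ln e with
      | false =>
        have := (h.ii d e hde hl hl').1
        rw [hx] at this
        exact absurd this (by simp)
      | true =>
        obtain ⟨_, b1, b2⟩ := h.mix e d (Ne.symm hde) hl' hl
        have := h.lnm e hl'
        rw [h.int d hl]
        exact ⟨this.1.symm, this.2.symm, b1, b2⟩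
    | true =>
      cases hl' : θ.ln e with
      | false =>
        obtain ⟨_, b1, b2⟩ := h.mix d e hde hl hl'
        have := h.lnm d hl
        rw [h.int e hl']
        exact ⟨this.1, b1.symm, this.2, b2.symm⟩
      | true => exact h.neq d e hde hl hl' hx
  ir := by
    intro a
    simp only [sg]
    cases phi θ p a with
    | none => rfl
    | some b => exact h.ir b
  RH := by
    intro d hd
    have hd' : onS d p = true := hd
    simp only [sg, hd', if_true]
    cases hl : θ.ln d with
    | false =>
      rw [h.int d hl]
      simp [phi, Rx]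
    | true =>
      simp only [phi, (h.lnm d hl).1, (h.lnm d hl).2, hd', hl, if_true, if_false, Rx]
      exact h.RH d hl

end Pool.Agent.VHW
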