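import Pool.Agent.VHW.Raw

/-!
# VHW/Names : properties of the names (helper18, `MP_720b7c_al`)
-/

set_option autoImplicit false

namespace Pool.Agent.VHW

open Pool.Agent.VHS

/-- symmetric corner data -/
structure Sym (θ : Raw) : Prop where
  dis : ∀ d e, θ.di d e = θ.di e d
  gas : ∀ d e, θ.gam d e = θ.gam e d

theorem vn_symm {θ : Raw} (h : Sym θ) (d e : Side) : θ.vn d e = θ.vn e d := by
  unfold Raw.vn
  apply pick_congr
  intro x
  simp only [Raw.vl, List.mem_cons, List.not_mem_nil, or_false, h.dis d e, h.gas d e]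
  tauto

/-- the corner at the end of side `d` to which the position belongs -/
def cor (d : Side) (p : P) : Option Side :=
  if d.hor then (if p.2.val ≤ 1 then some .B else if 7 ≤ p.2.val then some .U else none)
  else (if p.1.val ≤ 2 then some .L else if 6 ≤ p.1.val then some .R else none)

theorem bk_cor (d : Side) (p : P) (h : onS d p = true) :
    bk p = (match cor d p with
      | none => .e d
      | some e => if d.hor then .v d e else .v e d) := by
  revert d p; decide

theorem cor_perp {d e : Side} {p : P} (h : cor d p = some e) : d.hor ≠ e.hor := by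
  revert d e p; decide

theorem cor_corner {d e : Side} {p : P} (h1 : onS d p = true) (h2 : onS e p = true)
    (h : d.hor ≠ e.hor) : cor d p = some e := by
  revert d e p; decide

theorem cor_opp (d : Side) (p : P) : cor d.op (stp d p) = cor d p := by
  revert d p; decide

/-- names on a side -/
def snm (θ : Raw) (d : Side) : Option Side → Sl
  | none => θ.en d
  | some e => θ.vn d e

theorem name_v {θ : Raw} {h k : Side} (hh : h.hor = true) (hk : k.hor = false) :
    θ.name (.v h k) = θ.vn h k := by
  cases h <;> cases k <;> simp_all [Raw.name, Side.hor]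

theorem nm_side {θ : Raw} (hs : Sym θ) {d : Side} {p : P} (h : onS d p = true) :
    θ.nm p = snm θ d (cor d p) := by
  unfold Raw.nm
  rw [bk_cor d p h]
  cases hc : cor d p with
  | none => rfl
  | some e =>
    have hp := cor_perp hc
    simp only [snm]
    cases hd : d.hor with
    | true =>
      simp only [if_true]
      rw [name_v hd (by rw [hd] at hp; simpa using hp)]
    | false =>
      simp only [Bool.false_eq_true, if_false]
      rw [name_v (by rw [hd] at hp; simpa using hp) hd, vn_symm hs]

theorem nm_corner {θ : Raw} (hs : Sym θ) {d e : Side} {p : P} (h1 : onS d p = true)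
    (h2 : onS e p = true) (h : d.hor ≠ e.hor) : θ.nm p = θ.vn d e := by
  rw [nm_side hs h1, cor_corner h1 h2 h]; rfl

theorem vn_notMem (θ : Raw) (d e : Side) : θ.vn d e ∉ θ.vl d e :=
  pick_notMem (by simp [Raw.vl])

theorem en_notMem (θ : Raw) (d : Side) : θ.en d ∉ θ.el d :=
  pick_notMem (by simp [Raw.el])

theorem q1_notMem (θ : Raw) : θ.q1 ∉ θ.rg := pick_notMem (by simp [Raw.rg])
theorem q2_notMem (θ : Raw) : θ.q2 ∉ θ.q1 :: θ.rg := pick_notMem (by simp [Raw.rg])
theorem q0_notMem (θ : Raw) : θ.q0 ∉ θ.q2 :: θ.q1 :: θ.rg := pick_notMem (by simp [Raw.rg])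
theorem q3_notMem (θ : Raw) : θ.q3 ∉ θ.q0 :: θ.q2 :: θ.q1 :: θ.rg := pick_notMem (by simp [Raw.rg])

theorem q_notMem (θ : Raw) (i : Fin 4) : θ.name (.q i) ∉ θ.rg := by
  have h1 := q1_notMem θ
  have h2 := q2_notMem θ
  have h0 := q0_notMem θ
  have h3 := q3_notMem θ
  simp only [Raw.name]
  split_ifs
  · exact fun h => h0 (List.mem_cons_of_mem _ (List.mem_cons_of_mem _ h))
  · exact h1
  · exact fun h => h2 (List.mem_cons_of_mem _ h)
  · exact fun h => h3 (List.mem_cons_of_mem _ (List.mem_cons_of_mem _ (List.mem_cons_of_mem _ h)))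

theorem name_ne_m (θ : Raw) (b : Bk) : θ.name b ≠ θ.m := by
  cases b with
  | v h k =>
    have := vn_notMem θ (if h = .R then .R else .L) (if k = .U then .U else .B)
    intro e
    apply this
    simp only [Raw.name] at e
    rw [e]; simp [Raw.vl]
  | e d =>
    have := en_notMem θ d
    intro e
    apply this
    simp only [Raw.name] at e
    rw [e]; simp [Raw.el]
  | q i =>
    intro e
    apply q_notMem θ i
    rw [e]
    simp [Raw.rg]

theorem nm_ne_m (θ : Raw) (p : P) : θ.nm p ≠ θ.m := name_ne_m θ _

theorem snm_ne {θ : Raw} (d : Side) (o : Option Side) :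
    snm θ d o ≠ θ.par ∧ snm θ d o ≠ θ.al d ∧ snm θ d o ≠ θ.be d := by
  cases o with
  | none =>
    have := en_notMem θ d
    simp only [Raw.el, List.mem_cons, not_or] at this
    exact ⟨this.2.1, this.2.2.1, this.2.2.2.1⟩
  | some e =>
    have := vn_notMem θ d e
    simp only [Raw.vl, List.mem_cons, not_or] at this
    exact ⟨this.2.1, this.2.2.1, this.2.2.2.1⟩

theorem ring_ne {θ : Raw} (hs : Sym θ) {d : Side} {p : P} (h : onS d p = true) :
    θ.nm p ≠ θ.par ∧ θ.nm p ≠ θ.al d ∧ θ.nm p ≠ θ.be d := by
  rw [nm_side hs h]; exact snm_ne d _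

theorem corner_ne {θ : Raw} (hs : Sym θ) {d e : Side} {p : P} (h1 : onS d p = true)
    (h2 : onS e p = true) (h : d.hor ≠ e.hor) :
    (∀ x, θ.di d e = some x → θ.nm p ≠ x) ∧ (∀ g, θ.gam d e = some g → θ.nm p ≠ g) := by
  rw [nm_corner hs h1 h2 h]
  have := vn_notMem θ d e
  simp only [Raw.vl, List.mem_cons, not_or] at this
  constructor
  · intro x hx
    rw [hx] at this
    exact this.2.2.2.2.2.2.1
  · intro x hx
    rw [hx] at this
    exact this.2.2.2.2.2.2.2.1

theorem thick (θ : Raw) {d : Side} {p : P} (h : onS d p = true) : θ.nm (stp d.op p) = θ.nm p := by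
  unfold Raw.nm; rw [bk_thick d p h]

theorem q_inj (θ : Raw) (i j : Fin 4) (h : i ≠ j) : θ.name (.q i) ≠ θ.name (.q j) := by
  have h2 := q2_notMem θ
  have h0 := q0_notMem θ
  have h3 := q3_notMem θ
  have a21 : θ.q2 ≠ θ.q1 := fun e => h2 (by rw [e]; exact List.mem_cons_self)
  have a02 : θ.q0 ≠ θ.q2 := fun e => h0 (by rw [e]; exact List.mem_cons_self)
  have a01 : θ.q0 ≠ θ.q1 := fun e => h0 (by rw [e]; exact List.mem_cons_of_mem _ List.mem_cons_self)
  have a30 : θ.q3 ≠ θ.q0 := fun e => h3 (by rw [e]; exact List.mem_cons_self)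
  have a32 : θ.q3 ≠ θ.q2 := fun e => h3 (by rw [e]; exact List.mem_cons_of_mem _ List.mem_cons_self)
  have a31 : θ.q3 ≠ θ.q1 := fun e =>
    h3 (by rw [e]; exact List.mem_cons_of_mem _ (List.mem_cons_of_mem _ List.mem_cons_self))
  have key : ∀ i : Fin 4, θ.name (.q i) = ![θ.q0, θ.q1, θ.q2, θ.q3] i := by
    intro i; fin_cases i <;> rfl
  rw [key, key]
  fin_cases i <;> fin_cases j
  · exact absurd rfl h
  · exact a01
  · exact a02
  · exact a30.symm
  · exact a01.symm
  · exact absurd rfl h
  · exact a21.symm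
  · exact a31.symm
  · exact a02.symm
  · exact a21
  · exact absurd rfl h
  · exact a32.symm
  · exact a30
  · exact a31
  · exact a32
  · exact absurd rfl h

/-- the name map of a block is proper -/
theorem proper {θ : Raw} (hs : Sym θ) : Proper θ.name := by
  refine ⟨?_, q_inj θ, ?_, ?_⟩
  · intro h k hh hk
    rw [name_v hh hk]
    have e1 := en_notMem θ h
    have e2 := en_notMem θ k
    simp only [Raw.el, List.mem_cons, not_or, pa, pb, hh, hk, if_true, Bool.false_eq_true,
      if_false] at e1 e2
    constructor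
    · show θ.en h ≠ _
      cases k with
      | L => simp [Side.hor] at hk
      | R => simp [Side.hor] at hk
      | B => exact e1.2.2.2.2.1
      | U => exact e1.2.2.2.2.2.1
    · show θ.en k ≠ _
      rw [vn_symm hs]
      cases h with
      | L => exact e2.2.2.2.2.1
      | R => exact e2.2.2.2.2.2.1
      | B => simp [Side.hor] at hh
      | U => simp [Side.hor] at hh
  · intro i d h
    apply q_notMem θ i
    rw [h]
    cases d <;> simp [Raw.rg, Raw.name]
  · intro i h k e
    apply q_notMem θ i
    rw [e]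
    simp only [Raw.name]
    split_ifs <;> simp [Raw.rg]

end Pool.Agent.VHW
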