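import Pool.Agent.VHW.Inv

/-!
# VHW/Opp : the block on the other side of a line (helper18, `MP_720b7c_al`)
-/

set_option autoImplicit false

namespace Pool.Agent.VHW

open Pool.Agent.VHS

theorem ne_op_of_perp {d e : Side} (h : d.hor ≠ e.hor) : e ≠ d ∧ e ≠ d.op := by
  revert d e; decide

theorem op_ne (d : Side) : d.op ≠ d := by cases d <;> decide

theorem cases3 (d e : Side) : e = d ∨ e = d.op ∨ d.hor ≠ e.hor := by
  revert d e; decide

theorem rho_perp {d e : Side} (h : d.hor ≠ e.hor) : rho d e = e := by
  have := ne_op_of_perp h
  simp [rho, this.1, this.2]

theorem rho_op (d : Side) : rho d d.op = d := by simp [rho, op_ne]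

theorem rho_self (d : Side) : rho d d = d.op := by simp [rho]

theorem sym_opp {θ : Raw} (h : Sym θ) (d : Side) : Sym (opp d θ) := by
  constructor
  · intro e f
    simp only [opp]
    by_cases h1 : e.hor = f.hor
    · simp [h1]
    · have h1' : ¬ f.hor = e.hor := fun x => h1 x.symm
      simp only [h1, h1', if_false]
      by_cases h2 : e = d.op
      · have h3 : f ≠ d.op := by rintro rfl; exact h1 (by rw [h2])
        simp [h2, h3, h.dis d f]
      · by_cases h3 : f = d.op
        · simp [h2, h3, h.dis e d]
        · simp [h2, h3, h.dis (rho d e) (rho d f)]
  · intro e f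
    simp only [opp]
    by_cases h1 : e.hor = f.hor
    · simp [h1]
    · have h1' : ¬ f.hor = e.hor := fun x => h1 x.symm
      simp only [h1, h1', if_false]
      exact h.gas _ _

theorem vn_opp {θ : Raw} (h : Inv θ) {d e : Side} (hd : θ.ln d = true) (hde : d.hor ≠ e.hor) :
    (opp d θ).vn d.op e = θ.vn d e := by
  have h1 := ne_op_of_perp hde
  have h2 : ¬ d.op.hor = e.hor := by simpa using hde
  unfold Raw.vn
  apply pick_congr
  intro x
  simp only [Raw.vl, opp, h1.1, h1.2, h2, if_true, if_false, rho_op, rho_perp hde, List.mem_cons,
    List.not_mem_nil, or_false]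
  cases hx : θ.di d e with
  | none =>
    simp only [Option.isSome_none, Bool.false_eq_true, if_false, Option.getD_none, Option.map_none]
    by_cases hp : θ.par = θ.al d
    · simp only [hp, if_true]; tauto
    · simp only [hp, if_false]; tauto
  | some y =>
    have hl : θ.ln e = true := by
      by_contra hl
      have := (h.mix d e hde hd (by simpa using hl)).1
      rw [hx] at this
      exact absurd this (by simp)
    obtain ⟨a1, a2, a3, a4, g, g1, g2, g3, g4, g5, g6⟩ := h.eqc d e y hde hd hl hx
    simp only [Option.isSome_some, if_true, Option.getD_some, Option.map_some, g1, ← a1]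
    by_cases hp : θ.par = θ.al d
    · simp only [hp, if_true]; tauto
    · simp only [hp, if_false]; tauto

theorem en_opp {θ : Raw} (h : Inv θ) {d : Side} (hd : θ.ln d = true) :
    (opp d θ).en d.op = θ.en d := by
  unfold Raw.en
  apply pick_congr
  intro x
  simp only [Raw.el, pa_op, pb_op, vn_opp h hd (pa_hor d), vn_opp h hd (pb_hor d), List.mem_cons,
    List.not_mem_nil, or_false]
  simp only [opp, if_true]
  by_cases hp : θ.par = θ.al d
  · simp only [hp, if_true]; tauto
  · simp only [hp, if_false]; tauto

theorem snm_opp {θ : Raw} (h : Inv θ) {d : Side} (hd : θ.ln d = true) {o : Option Side}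
    (ho : ∀ e, o = some e → d.hor ≠ e.hor) : snm (opp d θ) d.op o = snm θ d o := by
  cases o with
  | none => exact en_opp h hd
  | some e => exact vn_opp h hd (ho e rfl)

/-- the names on the other side of a line are the same -/
theorem nm_opp {θ : Raw} (h : Inv θ) {d : Side} (hd : θ.ln d = true) {p : P} (hp : onS d p = true) :
    (opp d θ).nm (stp d p) = θ.nm p := by
  rw [nm_side h.toSym hp, nm_side (sym_opp h.toSym d) (d := d.op) (by rw [onS_op_stp']; exact hp),
    cor_opp]
  exact snm_opp h hd (fun e he => cor_perp he)

/-- index maps agree -/
theorem opp_sg_R {θ : Raw} (h : Inv θ) {d : Side} (hd : θ.ln d = true) {p : P}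
    (hp : onS d p = true) (a : J) :
    phi θ p (psi (sg θ p) d a) = (phi (opp d θ) (stp d p) a).map (psi θ d) := by
  have hr := ring_ne h.toSym hp
  have hlm := h.lnm d hd
  have hpo : onS d.op p = false := onS_op hp
  cases a with
  | s c =>
    simp only [psi, phi, sg, hp, if_true]
    show _ = Option.map _ (if c = θ.m then none else some (J.s c))
    by_cases h1 : c = θ.be d
    · subst h1
      simp [phi, hlm.1, hlm.2, psi]
    · by_cases h2 : c = θ.al d
      · subst h2
        simp [phi, h1, hlm.1, psi, hp, hd]
      · by_cases h3 : c = θ.m
        · simp [phi, h1, h2, h3, hlm.1.symm, hlm.2.symm]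
        · simp [phi, h1, h2, h3, psi]
  | h e =>
    by_cases he : e = d
    · subst he
      have h1 : onS e (stp e p) = false := onS_stp_of hp
      simp only [psi, phi, if_true, hpo, h1, Bool.false_eq_true, if_false, Option.map_some,
        nm_opp h hd hp, hr.2.1, hr.2.2]
    · by_cases he' : e = d.op
      · subst he'
        have h1 : onS d.op (stp d p) = true := by rw [onS_op_stp']; exact hp
        have h2 : (opp d θ).ln d.op = true := by simp only [opp, rho_op]; exact hd
        simp only [psi, phi, h1, h2, if_true, Option.map_some, op_ne, if_false]
        simp only [sg, hp, if_true]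
        by_cases h3 : θ.al d = θ.be d
        · simp [h3, phi, hp, hd]
        · simp [h3, phi, hlm.2]
      · have hde : d.hor ≠ e.hor := by
          revert he he'; cases d <;> cases e <;> decide
        have h1 : onS e (stp d p) = onS e p := onS_stp_perp (Ne.symm hde) p
        have h2 : (opp d θ).ln e = θ.ln e := by simp only [opp, rho_perp hde]
        have h3 : (opp d θ).m = θ.m := rfl
        simp only [psi, he, he', if_false]
        cases hpe : onS e p with
        | false =>
          have h4 : (sg θ p).di d e = none := by simp [sg, hde, hp, hpe]
          simp only [h4, phi, hpe, h1, Option.isSome_none, Bool.false_eq_true, if_false,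
            Option.map_some, psi, nm_opp h hd hp, hr.2.1, hr.2.2]
        | true =>
          have h4 : (sg θ p).di d e = θ.di d e := by simp [sg, hde, hp, hpe]
          have h5 : (sg θ p).al d = θ.al d := by simp [sg, hp]
          have h6 : (sg θ p).be d = θ.be d := by simp [sg, hp]
          simp only [h4, h5, h6, phi, h1, h2, h3, hpe, if_true]
          cases hx : θ.di d e with
          | none =>
            simp only [Option.isSome_none, Bool.false_eq_true, if_false, phi, hpe, if_true]
            cases hl : θ.ln e with
            | false => simp [psi, hlm.1.symm, hlm.2.symm]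
            | true => simp [psi, he, he', hx]
          | some y =>
            have hl : θ.ln e = true := by
              by_contra hl
              have := (h.mix d e hde hd (by simpa using hl)).1
              rw [hx] at this
              exact absurd this (by simp)
            by_cases h7 : θ.al d = θ.be d
            · simp [h7, hl, psi, he, he', hx, phi, hpe]
            · simp [h7, hl, psi, he, he', hx, phi, hlm.2]

theorem Rx_map {α β : Type} (R : α → α → Bool) (f : β → α) (a b : Option β) :
    Rx R (a.map f) (b.map f) = Rx (fun x y => R (f x) (f y)) a b := by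
  cases a <;> cases b <;> rfl

theorem opp_sg {θ : Raw} (h : Inv θ) {d : Side} (hd : θ.ln d = true) {p : P}
    (hp : onS d p = true) : opp d (sg θ p) = sg (opp d θ) (stp d p) := by
  have hr := ring_ne h.toSym hp
  have hlm := h.lnm d hd
  have hpo : onS d.op p = false := onS_op hp
  have hpp : onS d.op (stp d p) = true := by rw [onS_op_stp']; exact hp
  have hps : onS d (stp d p) = false := onS_stp_of hp
  have hln : ∀ e, (opp d θ).ln e = θ.ln (rho d e) := fun _ => rfl
  have hthick : ∀ q : P, onS d q = true → (opp d θ).nm (stp d (stp d q)) = (opp d θ).nm (stp d q) := by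
    intro q hq
    have := thick (opp d θ) (d := d.op) (p := stp d q) (by rw [onS_op_stp']; exact hq)
    simpa using this
  apply Raw.ext
  · exact (nm_opp h hd hp).symm
  · simp only [opp, sg, hp, if_true, hlm.1.symm, if_false]
  · funext e
    simp only [opp, sg]
    rcases cases3 d e with rfl | rfl | hde
    · rw [rho_self, hpo, hps]
    · rw [rho_op, hp, hpp]
    · rw [rho_perp hde, onS_stp_perp (Ne.symm hde)]
  · funext e
    show (opp d (sg θ p)).al e = if onS e (stp d p) = true then (opp d θ).al e else (opp d θ).nm (stp d p)
    rw [nm_opp h hd hp]
    rcases cases3 d e with rfl | rfl | hde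
    · simp [opp, sg, hps, hpo, (op_ne e).symm]
    · simp [opp, sg, hpp, hp]
    · have h1 := ne_op_of_perp hde
      have h2 : onS e (stp d p) = onS e p := onS_stp_perp (Ne.symm hde) p
      simp only [opp, sg, h1.1, h1.2, if_false, h2, hp, hde, true_and, true_or, if_true]
      cases hpe : onS e p with
      | true => simp
      | false => simp
  · funext e
    show (opp d (sg θ p)).be e = if onS e (stp d p) = true then (opp d θ).be e else
      (opp d θ).nm (stp e (stp d p))
    rcases cases3 d e with rfl | rfl | hde
    · simp only [opp, sg, hps, hpo, (op_ne e).symm, if_true, if_false, Bool.false_eq_true]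
      rw [thick θ hp]
      have := hthick p hp
      rw [nm_opp h hd hp] at this
      exact this.symm
    · simp [opp, sg, hpp, hp]
    · have h1 := ne_op_of_perp hde
      have h2 : onS e (stp d p) = onS e p := onS_stp_perp (Ne.symm hde) p
      have h3 : onS d (stp e p) = true := by rw [onS_stp_perp hde]; exact hp
      rw [h2, stp_comm e d, nm_opp h hd h3]
      simp only [opp, sg, h1.1, h1.2, if_false, hp, hde, true_and, true_or, if_true]
      cases hpe : onS e p with
      | true => simp
      | false => simp
  · funext e f
    show (opp d (sg θ p)).di e f = if e.hor = f.hor then none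
      else if onS e (stp d p) = true ∧ onS f (stp d p) = true then (opp d θ).di e f
      else if onS e (stp d p) = true ∨ onS f (stp d p) = true then none
      else some ((opp d θ).nm (stp e (stp f (stp d p))))
    by_cases hef : e.hor = f.hor
    · simp [opp, hef]
    · have key : ∀ e f : Side, e.hor ≠ f.hor → (e = d ∨ e = d.op) →
          (opp d (sg θ p)).di e f = if e.hor = f.hor then none
            else if onS e (stp d p) = true ∧ onS f (stp d p) = true then (opp d θ).di e f
            else if onS e (stp d p) = true ∨ onS f (stp d p) = true then none
            else some ((opp d θ).nm (stp e (stp f (stp d p)))) := by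
        intro e f hef he
        rcases he with rfl | rfl
        · have hfo := ne_op_of_perp hef
          have h2 : onS f (stp e p) = onS f p := onS_stp_perp (Ne.symm hef) p
          have hef' : ¬ e.op.hor = f.hor := by simpa using hef
          simp only [opp, sg, hef, if_false, (op_ne e).symm, hfo.2, rho_self, rho_perp hef, hef', hpo,
            Bool.false_eq_true, false_and, false_or, hps, h2]
          cases hpf : onS f p with
          | true => simp
          | false =>
            simp only [Bool.false_eq_true, if_false]
            have h3 : onS e (stp f p) = true := by rw [onS_stp_perp hef]; exact hp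
            rw [thick θ h3, stp_comm f e, ← nm_opp h hd h3]
            exact congrArg some (hthick _ h3).symm
        · have hef2 : d.hor ≠ f.hor := by simpa using hef
          have hfo := ne_op_of_perp hef2
          have h2 : onS f (stp d p) = onS f p := onS_stp_perp (Ne.symm hef2) p
          simp only [opp, sg, hef, if_false, if_true, hp, hpp, h2, hef2, true_and, true_or]
          cases hpf : onS f p with
          | true => simp
          | false => simp
      have hs1 := (sym_opp (sym_sg h.toSym p) d).dis
      have hs2 := (sym_sg (sym_opp h.toSym d) (stp d p)).dis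
      rcases cases3 d e with he | he | hde
      · exact key e f hef (Or.inl he)
      · exact key e f hef (Or.inr he)
      · have hf : f = d ∨ f = d.op := by
          rcases cases3 d f with hf | hf | hf
          · exact Or.inl hf
          · exact Or.inr hf
          · exfalso
            apply hef
            revert hde hf
            cases d.hor <;> cases e.hor <;> cases f.hor <;> simp
        rw [hs1 e f]
        refine (key f e (Ne.symm hef) hf).trans ?_
        exact (hs2 f e)
  · funext e f
    show (if e.hor = f.hor then none else (sg θ p).gam (rho d e) (rho d f)) =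
      if e.hor ≠ f.hor ∧ onS e (stp d p) = true ∧ onS f (stp d p) = true then
        (if (opp d θ).ln e = false ∧ (opp d θ).ln f = false then some (opp d θ).par
          else (opp d θ).gam e f) else none
    by_cases hef : e.hor = f.hor
    · simp [hef]
    · have hgd : ∀ f : Side, d.hor ≠ f.hor → (sg θ p).gam d f = if onS f p = true then θ.gam d f else none := by
        intro f hf
        simp [sg, hf, hp, hd]
      have hgo : ∀ f : Side, (sg θ p).gam d.op f = none := by
        intro f
        simp [sg, hpo]
      rcases cases3 d e with rfl | rfl | hde
      · rw [rho_self, hgo]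
        simp [hps]
      · have hef2 : d.hor ≠ f.hor := by simpa using hef
        have h2 : onS f (stp d p) = onS f p := onS_stp_perp (Ne.symm hef2) p
        rw [rho_op, rho_perp hef2, hgd f hef2, hln, rho_op, hd]
        simp [opp, hpp, h2, hef2, rho_op, rho_perp hef2]
      · have h2 : onS e (stp d p) = onS e p := onS_stp_perp (Ne.symm hde) p
        have hf : f = d ∨ f = d.op := by
          rcases cases3 d f with hf | hf | hf
          · exact Or.inl hf
          · exact Or.inr hf
          · exfalso
            apply hef
            revert hde hf
            cases d.hor <;> cases e.hor <;> cases f.hor <;> simp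
        rcases hf with rfl | rfl
        · rw [rho_self, rho_perp hde, (sym_sg h.toSym p).gas, hgo]
          simp [hps]
        · rw [rho_op, rho_perp hde, (sym_sg h.toSym p).gas, hgd e hde, hln, hln, rho_op, rho_perp hde, hd]
          simp [opp, hpp, h2, Ne.symm hde, rho_op, rho_perp hde, h.gas e d]
  · funext a b
    show Rx θ.R (phi θ p (psi (sg θ p) d a)) (phi θ p (psi (sg θ p) d b)) =
      Rx (fun x y => θ.R (psi θ d x) (psi θ d y)) (phi (opp d θ) (stp d p) a) (phi (opp d θ) (stp d p) b)
    rw [opp_sg_R h hd hp a, opp_sg_R h hd hp b, Rx_map]

end Pool.Agent.VHW
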