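import Pool.Agent.VHW.Tpl

/-!
# VHW/Raw : raw types of blocks, names, children, opposite blocks (helper18, `MP_720b7c_al`)

Slots are `Fin 16`.  A raw type contains: the empty slot `m`, the slot `par` of the header of the
parent; for each side `d` whether it is a line side (`ln d`), the slot `al d` which is empty in the line
level ancestor on my side and the slot `be d` which is empty in the line level ancestor on the other side
(on interior sides: the empty slots of the block and of its neighbour); for each corner `d, e` the slot
`di d e` of the diagonal block if the levels are equal, and the slot `gam d e` of the header above the line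
header.  `R` : `older` relation between headers; index `s c`: the header in slot `c` (for `c = m`: the
header which the block has dropped), index `h d`: the header in slot `al d` of the block on the other
side of the line `d`.
-/

set_option autoImplicit false

namespace Pool.Agent.VHW

open Pool.Agent.VHS

/-- slots -/
abbrev Sl := Fin 16

/-- least slot which is not in the list -/
def pick (l : List Sl) : Sl := ((List.finRange 16).find? (fun c => decide (c ∉ l))).getD 0

theorem pick_notMem {l : List Sl} (h : l.length < 16) : pick l ∉ l := by
  unfold pick
  cases hf : (List.finRange 16).find? (fun c => decide (c ∉ l)) with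
  | some c =>
    have := List.find?_some hf
    simpa using this
  | none =>
    exfalso
    have h1 : ∀ c : Sl, c ∈ l := by
      intro c
      by_contra hc
      have := List.find?_eq_none.1 hf c (List.mem_finRange c)
      simp [hc] at this
    have h2 : (Finset.univ : Finset Sl).card ≤ l.toFinset.card :=
      Finset.card_le_card (fun c _ => by simp [h1 c])
    have h3 := List.toFinset_card_le l
    simp only [Finset.card_univ, Fintype.card_fin] at h2
    omega

theorem pick_congr {l l' : List Sl} (h : ∀ x, x ∈ l ↔ x ∈ l') : pick l = pick l' := by
  have : (fun c => decide (c ∉ l)) = (fun c => decide (c ∉ l')) := by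
    funext c; simp [h c]
  unfold pick; rw [this]

theorem pick_ne {l : List Sl} {c : Sl} (hc : c ∈ l) (h : l.length < 16) : pick l ≠ c :=
  fun e => pick_notMem h (e ▸ hc)

/-- index set of the comparison relation -/
inductive J
  | s (c : Sl)
  | h (d : Side)
  deriving DecidableEq, Fintype

/-- raw types -/
@[ext] structure Raw where
  m : Sl
  par : Sl
  ln : Side → Bool
  al : Side → Sl
  be : Side → Sl
  di : Side → Side → Option Sl
  gam : Side → Side → Option Sl
  /-- `R a b`: the header `a` is older than the header `b` -/
  R : J → J → Bool

namespace Raw

/-- forbidden slots at a vertex -/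
def vl (θ : Raw) (d e : Side) : List Sl :=
  [θ.m, θ.par, θ.al d, θ.be d, θ.al e, θ.be e, (θ.di d e).getD θ.m, (θ.gam d e).getD θ.m]

/-- vertex name -/
def vn (θ : Raw) (d e : Side) : Sl := pick (θ.vl d e)

end Raw

/-- the two perpendicular sides -/
def pa (d : Side) : Side := if d.hor then .B else .L
/-- the two perpendicular sides -/
def pb (d : Side) : Side := if d.hor then .U else .R

theorem perp_cases {d e : Side} (h : d.hor ≠ e.hor) : e = pa d ∨ e = pb d := by
  revert h; cases d <;> cases e <;> decide

theorem pa_hor (d : Side) : d.hor ≠ (pa d).hor := by cases d <;> decide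
theorem pb_hor (d : Side) : d.hor ≠ (pb d).hor := by cases d <;> decide

@[simp] theorem pa_op (d : Side) : pa d.op = pa d := by cases d <;> rfl
@[simp] theorem pb_op (d : Side) : pb d.op = pb d := by cases d <;> rfl

namespace Raw

/-- forbidden slots on an edge -/
def el (θ : Raw) (d : Side) : List Sl :=
  [θ.m, θ.par, θ.al d, θ.be d, θ.vn d (pa d), θ.vn d (pb d)]

/-- edge name -/
def en (θ : Raw) (d : Side) : Sl := pick (θ.el d)

/-- ring names and `m`, `par` -/
def rg (θ : Raw) : List Sl :=
  [θ.m, θ.par, θ.vn .L .B, θ.vn .L .U, θ.vn .R .B, θ.vn .R .U, θ.en .L, θ.en .R, θ.en .B, θ.en .U]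

def q1 (θ : Raw) : Sl := pick θ.rg
def q2 (θ : Raw) : Sl := pick (θ.q1 :: θ.rg)
def q0 (θ : Raw) : Sl := pick (θ.q2 :: θ.q1 :: θ.rg)
def q3 (θ : Raw) : Sl := pick (θ.q0 :: θ.q2 :: θ.q1 :: θ.rg)

/-- names of bricks -/
def name (θ : Raw) : Bk → Sl
  | .v h k => θ.vn (if h = .R then .R else .L) (if k = .U then .U else .B)
  | .e d => θ.en d
  | .q i => if i = 0 then θ.q0 else if i = 1 then θ.q1 else if i = 2 then θ.q2 else θ.q3

/-- names of positions -/
def nm (θ : Raw) (p : P) : Sl := θ.name (bk p)

end Raw

/-- `older than`, extended by the youngest element `none` -/
def Rx {α : Type} (R : α → α → Bool) : Option α → Option α → Bool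
  | some a, some b => R a b
  | some _, none => true
  | none, _ => false

/-- indices of the child in terms of the parent -/
def phi (θ : Raw) (p : P) : J → Option J
  | .s c => if c = θ.m then none else some (.s c)
  | .h d => if onS d p then (if θ.ln d then some (.h d) else some (.s θ.m)) else some (.s (θ.nm p))

/-- the child at position `p` -/
def sg (θ : Raw) (p : P) : Raw where
  m := θ.nm p
  par := θ.m
  ln d := onS d p
  al d := if onS d p then θ.al d else θ.nm p
  be d := if onS d p then θ.be d else θ.nm (stp d p)
  di d e := if d.hor = e.hor then none
    else if onS d p = true ∧ onS e p = true then θ.di d e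
    else if onS d p = true ∨ onS e p = true then none
    else some (θ.nm (stp d (stp e p)))
  gam d e := if d.hor ≠ e.hor ∧ onS d p = true ∧ onS e p = true then
      (if θ.ln d = false ∧ θ.ln e = false then some θ.par else θ.gam d e)
    else none
  R a b := Rx θ.R (phi θ p a) (phi θ p b)

/-- reflection of sides -/
def rho (d e : Side) : Side := if e = d then d.op else if e = d.op then d else e

/-- indices of the opposite block in terms of the block -/
def psi (θ : Raw) (d : Side) : J → J
  | .s c => if c = θ.be d then .s (θ.al d) else if c = θ.al d then .h d else .s c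
  | .h e => if e = d then .h d.op
    else if e = d.op then (if θ.al d = θ.be d then .h d else .s (θ.be d))
    else if (θ.di d e).isSome then (if θ.al d = θ.be d then .h e else .s (θ.be d))
    else .h e

/-- the block on the other side of the line `d` -/
def opp (d : Side) (θ : Raw) : Raw where
  m := θ.m
  par := if θ.par = θ.al d then θ.be d else θ.par
  ln e := θ.ln (rho d e)
  al e := if e = d.op then θ.be d else if e = d then θ.al d.op else
    if (θ.di d e).isSome then θ.be d else θ.al e
  be e := if e = d.op then θ.al d else if e = d then θ.be d.op else (θ.di d e).getD (θ.be e)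
  di e f := if e.hor = f.hor then none
    else if e = d.op then (θ.di d f).map (fun _ => θ.be f)
    else if f = d.op then (θ.di e d).map (fun _ => θ.be e)
    else θ.di (rho d e) (rho d f)
  gam e f := if e.hor = f.hor then none else θ.gam (rho d e) (rho d f)
  R a b := θ.R (psi θ d a) (psi θ d b)

end Pool.Agent.VHW
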