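import Pool.Agent.VHW.Opp

/-!
# VHW/Sib : the other side of a new line (helper18, `MP_720b7c_al`)
-/

set_option autoImplicit false

namespace Pool.Agent.VHW

open Pool.Agent.VHS

theorem vn_sib {η : Raw} {d e : Side} {q : P} (hq : onS d q = false) (hde : d.hor ≠ e.hor) :
    (sg η (stp d q)).vn d.op e = (sg η q).vn d e := by
  have h1 : onS d.op (stp d q) = false := by rw [onS_op_stp']; exact hq
  have h2 : onS e (stp d q) = onS e q := onS_stp_perp (Ne.symm hde) q
  have h3 : ¬ d.op.hor = e.hor := by simpa using hde
  have h4 : stp d.op (stp d q) = q := by simp
  have h5 : stp d.op (stp e (stp d q)) = stp e q := by rw [← stp_comm d e]; simp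
  unfold Raw.vn
  apply pick_congr
  intro x
  simp only [Raw.vl, sg, h1, h2, h3, h4, h5, hq, hde, if_false, Bool.false_eq_true, false_and, false_or,
    and_false, Option.getD_none, List.mem_cons, List.not_mem_nil, or_false]
  rw [stp_comm e d q]
  cases he : onS e q with
  | true =>
    simp only [if_true, Option.getD_none]
    tauto
  | false =>
    simp only [Bool.false_eq_true, if_false, Option.getD_some]
    tauto

theorem en_sib {η : Raw} {d : Side} {q : P} (hq : onS d q = false) :
    (sg η (stp d q)).en d.op = (sg η q).en d := by
  have h1 : onS d.op (stp d q) = false := by rw [onS_op_stp']; exact hq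
  have h4 : stp d.op (stp d q) = q := by simp
  unfold Raw.en
  apply pick_congr
  intro x
  simp only [Raw.el, pa_op, pb_op, vn_sib hq (pa_hor d), vn_sib hq (pb_hor d), List.mem_cons,
    List.not_mem_nil, or_false]
  simp only [sg, h1, h4, hq, Bool.false_eq_true, if_false]
  tauto

/-- the names on the other side of a new line are the same -/
theorem nm_sib {η : Raw} (h : Sym η) {d : Side} {q : P} (hq : onS d q = false) {p : P}
    (hp : onS d p = true) : (sg η (stp d q)).nm (stp d p) = (sg η q).nm p := by
  rw [nm_side (sym_sg h q) hp, nm_side (sym_sg h (stp d q)) (d := d.op) (by rw [onS_op_stp']; exact hp),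
    cor_opp]
  cases hc : cor d p with
  | none => exact en_sib hq
  | some e => exact vn_sib hq (cor_perp hc)

/-- index maps agree -/
theorem sib_sg_R {η : Raw} (h : Inv η) {d : Side} {q : P} (hq : onS d q = false) {p : P}
    (hp : onS d p = true) (x : J) :
    (phi (sg η q) p (psi (sg (sg η q) p) d x)).map (phi η q) =
      (phi (sg η (stp d q)) (stp d p) x).map (phi η (stp d q)) := by
  have h1 : onS d.op (stp d q) = false := by rw [onS_op_stp']; exact hq
  have hpo : onS d.op p = false := onS_op hp
  have hpp : onS d.op (stp d p) = true := by rw [onS_op_stp']; exact hp
  have hps : onS d (stp d p) = false := onS_stp_of hp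
  have hal : (sg (sg η q) p).al d = η.nm q := by simp [sg, hp, hq]
  have hbe : (sg (sg η q) p).be d = η.nm (stp d q) := by simp [sg, hp, hq]
  have ham : (sg η q).m = η.nm q := rfl
  have hbm : (sg η (stp d q)).m = η.nm (stp d q) := rfl
  have hla : (sg η q).ln d = false := hq
  have hlb : (sg η (stp d q)).ln d.op = false := h1
  have hn := nm_sib h.toSym hq hp
  have hr := (ring_ne (sym_sg h.toSym q) hp).1
  have hr' : (sg η q).nm p ≠ η.m := hr
  have n1 := nm_ne_m η q
  have n2 := nm_ne_m η (stp d q)
  have pA : ∀ c, phi (sg η q) p (.s c) = if c = η.nm q then none else some (.s c) := fun _ => rfl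
  have pB : ∀ c, phi (sg η (stp d q)) (stp d p) (.s c) =
    if c = η.nm (stp d q) then none else some (.s c) := fun _ => rfl
  have pE : ∀ q c, phi η q (.s c) = if c = η.m then none else some (.s c) := fun _ _ => rfl
  cases x with
  | s c =>
    simp only [psi, hal, hbe, pB]
    by_cases c1 : c = η.nm (stp d q)
    · simp [c1, pA]
    · by_cases c2 : c = η.nm q
      · subst c2
        simp [c1, phi, hp, hla, ham, n1]
      · simp [c1, c2, pA, pE]
  | h e =>
    by_cases he : e = d
    · subst he
      simp only [psi, if_true, phi, hpo, hps, hn, Bool.false_eq_true, if_false, Option.map_some, hr']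
    · by_cases he' : e = d.op
      · subst he'
        simp only [psi, hal, hbe, op_ne, if_false, if_true]
        simp only [phi, hpp, hlb, hbm, if_true, Bool.false_eq_true, if_false, Option.map_some, n2]
        by_cases c1 : η.nm q = η.nm (stp d q)
        · simp [c1, hp, hla, ham, n2, pE]
        · simp [c1, ham, n2, Ne.symm c1, pE]
      · have hde : d.hor ≠ e.hor := by
          revert he he'; cases d <;> cases e <;> decide
        have h3 : onS e (stp d p) = onS e p := onS_stp_perp (Ne.symm hde) p
        have h4 : onS e (stp d q) = onS e q := onS_stp_perp (Ne.symm hde) q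
        have hlea : (sg η q).ln e = onS e q := rfl
        have hleb : (sg η (stp d q)).ln e = onS e q := h4
        simp only [psi, he, he', if_false]
        cases hpe : onS e p with
        | false =>
          have h5 : (sg (sg η q) p).di d e = none := by simp [sg, hde, hp, hpe]
          simp only [h5, Option.isSome_none, Bool.false_eq_true, if_false, phi, hpe, h3, hn,
            Option.map_some]
        | true =>
          have h5 : (sg (sg η q) p).di d e = (sg η q).di d e := by
            show (if d.hor = e.hor then none else if onS d p = true ∧ onS e p = true then _ else _) = _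
            simp [hde, hp, hpe]
          cases hqe : onS e q with
          | true =>
            have h6 : (sg η q).di d e = none := by simp [sg, hde, hq, hqe]
            simp only [h5, h6, Option.isSome_none, Bool.false_eq_true, if_false, phi, hpe, h3, hlea,
              hleb, hqe, h4, if_true, Option.map_some]
          | false =>
            have h6 : ((sg η q).di d e).isSome = true := by simp [sg, hde, hq, hqe]
            simp only [h5, h6, if_true, hal, hbe]
            simp only [phi, hpe, h3, hlea, hleb, hqe, Bool.false_eq_true, if_true, if_false, hbm,
              Option.map_some, n2]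
            by_cases c1 : η.nm q = η.nm (stp d q)
            · simp [c1, ham, n2, hpe, hlea, hqe, pE]
            · simp [c1, ham, n2, Ne.symm c1, pE]

theorem sib_sg {η : Raw} (h : Inv η) {d : Side} {q : P} (hq : onS d q = false) {p : P}
    (hp : onS d p = true) : opp d (sg (sg η q) p) = sg (sg η (stp d q)) (stp d p) := by
  have h1 : onS d.op (stp d q) = false := by rw [onS_op_stp']; exact hq
  have hpo : onS d.op p = false := onS_op hp
  have hpp : onS d.op (stp d p) = true := by rw [onS_op_stp']; exact hp
  have hps : onS d (stp d p) = false := onS_stp_of hp
  have hAal : (sg η q).al d = η.nm q := by simp [sg, hq]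
  have hAbe : (sg η q).be d = η.nm (stp d q) := by simp [sg, hq]
  have hBal : (sg η (stp d q)).al d.op = η.nm (stp d q) := by simp [sg, h1]
  have hBbe : (sg η (stp d q)).be d.op = η.nm q := by simp [sg, h1]
  have ham : (sg η q).m = η.nm q := rfl
  have hbm : (sg η (stp d q)).m = η.nm (stp d q) := rfl
  have hn : ∀ p, onS d p = true → (sg η (stp d q)).nm (stp d p) = (sg η q).nm p :=
    fun p hp => nm_sib h.toSym hq hp
  have hthick : ∀ r : P, onS d r = true →
      (sg η (stp d q)).nm (stp d (stp d r)) = (sg η (stp d q)).nm (stp d r) := by
    intro r hr
    have := thick (sg η (stp d q)) (d := d.op) (p := stp d r) (by rw [onS_op_stp']; exact hr)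
    simpa using this
  have hdiA : ∀ e, d.hor ≠ e.hor → (sg η q).di d e =
      if onS e q = true then none else some (η.nm (stp d (stp e q))) := by
    intro e he; simp [sg, he, hq]
  have hdiB : ∀ e, d.hor ≠ e.hor → (sg η (stp d q)).di d.op e =
      if onS e q = true then none else some (η.nm (stp e q)) := by
    intro e he
    have h2 : onS e (stp d q) = onS e q := onS_stp_perp (Ne.symm he) q
    have h3 : ¬ d.op.hor = e.hor := by simpa using he
    have h5 : stp d.op (stp e (stp d q)) = stp e q := by rw [← stp_comm d e]; simp
    simp [sg, he, h1, h2, h5]
  have hsa := sym_sg h.toSym q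
  have hsb := sym_sg h.toSym (stp d q)
  apply Raw.ext
  · exact (hn p hp).symm
  · show (if (sg η q).m = (sg (sg η q) p).al d then (sg (sg η q) p).be d else (sg η q).m) = η.nm (stp d q)
    simp [sg, hp, hq]
  · funext e
    show onS (rho d e) p = onS e (stp d p)
    rcases cases3 d e with rfl | rfl | hde
    · rw [rho_self, hpo, hps]
    · rw [rho_op, hp, hpp]
    · rw [rho_perp hde, onS_stp_perp (Ne.symm hde)]
  · funext e
    show (opp d (sg (sg η q) p)).al e = if onS e (stp d p) = true then (sg η (stp d q)).al e else
      (sg η (stp d q)).nm (stp d p)
    rw [hn p hp]
    have g1 : (sg (sg η q) p).be d = η.nm (stp d q) := by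
      show (if onS d p = true then _ else _) = _
      rw [if_pos hp, hAbe]
    rcases cases3 d e with rfl | rfl | hde
    · show (if e = e.op then _ else if e = e then (sg (sg η q) p).al e.op else _) = _
      simp [sg, hps, hpo, (op_ne e).symm]
    · show (if d.op = d.op then (sg (sg η q) p).be d else _) = _
      rw [if_pos rfl, g1, hpp, if_pos rfl, hBal]
    · have h7 := ne_op_of_perp hde
      have h2 : onS e (stp d p) = onS e p := onS_stp_perp (Ne.symm hde) p
      have h3 : onS e (stp d q) = onS e q := onS_stp_perp (Ne.symm hde) q
      show (if e = d.op then _ else if e = d then _ else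
        if ((sg (sg η q) p).di d e).isSome then (sg (sg η q) p).be d else (sg (sg η q) p).al e) = _
      rw [if_neg h7.2, if_neg h7.1, g1, h2]
      have h5 : (sg (sg η q) p).di d e = if onS e p = true then (sg η q).di d e else none := by
        show (if d.hor = e.hor then none else if onS d p = true ∧ onS e p = true then _ else
          if onS d p = true ∨ onS e p = true then none else _) = _
        simp [hde, hp]
      rw [h5]
      cases hpe : onS e p with
      | false =>
        simp only [Bool.false_eq_true, if_false, Option.isSome_none]
        show (if onS e p = true then _ else (sg η q).nm p) = _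
        rw [hpe]; simp
      | true =>
        simp only [if_true, hdiA e hde]
        cases hqe : onS e q with
        | true =>
          simp only [if_true, Option.isSome_none, Bool.false_eq_true, if_false]
          show (if onS e p = true then (sg η q).al e else _) = (sg η (stp d q)).al e
          rw [hpe]
          simp [sg, hqe, h3]
        | false =>
          simp [sg, hqe, h3]
  · funext e
    show (opp d (sg (sg η q) p)).be e = if onS e (stp d p) = true then (sg η (stp d q)).be e else
      (sg η (stp d q)).nm (stp e (stp d p))
    rcases cases3 d e with rfl | rfl | hde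
    · show (if e = e.op then _ else if e = e then (sg (sg η q) p).be e.op else _) = _
      rw [if_neg (op_ne e).symm, if_pos rfl, hps]
      show (if onS e.op p = true then _ else (sg η q).nm (stp e.op p)) = _
      rw [hpo, thick (sg η q) hp]
      simp only [Bool.false_eq_true, if_false]
      rw [hthick p hp, hn p hp]
    · show (if d.op = d.op then (sg (sg η q) p).al d else _) = _
      rw [if_pos rfl, hpp, if_pos rfl, hBbe]
      show (if onS d p = true then (sg η q).al d else _) = _
      rw [if_pos hp, hAal]
    · have h7 := ne_op_of_perp hde
      have h2 : onS e (stp d p) = onS e p := onS_stp_perp (Ne.symm hde) p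
      have h3 : onS e (stp d q) = onS e q := onS_stp_perp (Ne.symm hde) q
      have h8 : onS d (stp e p) = true := by rw [onS_stp_perp hde]; exact hp
      show (if e = d.op then _ else if e = d then _ else
        ((sg (sg η q) p).di d e).getD ((sg (sg η q) p).be e)) = _
      rw [if_neg h7.2, if_neg h7.1, h2, stp_comm e d, hn _ h8]
      have h5 : (sg (sg η q) p).di d e = if onS e p = true then (sg η q).di d e else none := by
        show (if d.hor = e.hor then none else if onS d p = true ∧ onS e p = true then _ else
          if onS d p = true ∨ onS e p = true then none else _) = _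
        simp [hde, hp]
      rw [h5]
      cases hpe : onS e p with
      | false =>
        simp only [Bool.false_eq_true, if_false, Option.getD_none]
        show (if onS e p = true then _ else (sg η q).nm (stp e p)) = _
        rw [hpe]; simp
      | true =>
        simp only [if_true, hdiA e hde]
        cases hqe : onS e q with
        | true =>
          simp only [if_true, Option.getD_none]
          show (if onS e p = true then (sg η q).be e else _) = (sg η (stp d q)).be e
          rw [hpe]
          simp [sg, hqe, h3]
        | false =>
          simp [sg, hqe, h3, stp_comm e d]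
  · funext e f
    show (opp d (sg (sg η q) p)).di e f = (sg (sg η (stp d q)) (stp d p)).di e f
    by_cases hef : e.hor = f.hor
    · simp [opp, sg, hef]
    · have key : ∀ e f : Side, e.hor ≠ f.hor → (e = d ∨ e = d.op) →
          (opp d (sg (sg η q) p)).di e f = (sg (sg η (stp d q)) (stp d p)).di e f := by
        intro e f hef he
        have hR : (sg (sg η (stp d q)) (stp d p)).di e f = if e.hor = f.hor then none
            else if onS e (stp d p) = true ∧ onS f (stp d p) = true then (sg η (stp d q)).di e f
            else if onS e (stp d p) = true ∨ onS f (stp d p) = true then none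
            else some ((sg η (stp d q)).nm (stp e (stp f (stp d p)))) := rfl
        have hL : ∀ e f, (sg (sg η q) p).di e f = if e.hor = f.hor then none
            else if onS e p = true ∧ onS f p = true then (sg η q).di e f
            else if onS e p = true ∨ onS f p = true then none
            else some ((sg η q).nm (stp e (stp f p))) := fun _ _ => rfl
        rw [hR]
        rcases he with rfl | rfl
        · have hfo := ne_op_of_perp hef
          have h2 : onS f (stp e p) = onS f p := onS_stp_perp (Ne.symm hef) p
          have hef' : ¬ e.op.hor = f.hor := by simpa using hef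
          have h3 : onS e (stp f p) = true := by rw [onS_stp_perp hef]; exact hp
          simp only [opp, hef, if_false, (op_ne e).symm, hfo.2, rho_self, rho_perp hef, hL, hef', hpo,
            Bool.false_eq_true, false_and, false_or, hps, h2]
          cases hpf : onS f p with
          | true => simp
          | false =>
            simp only [Bool.false_eq_true, if_false]
            rw [thick (sg η q) h3, stp_comm f e, ← hn _ h3]
            exact congrArg some (hthick _ h3).symm
        · have hef2 : d.hor ≠ f.hor := by simpa using hef
          have hfo := ne_op_of_perp hef2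
          have h2 : onS f (stp d p) = onS f p := onS_stp_perp (Ne.symm hef2) p
          have h3 : (sg (sg η q) p).be f = if onS f p = true then (sg η q).be f else
            (sg η q).nm (stp f p) := rfl
          simp only [opp, hL, hef, if_false, if_true, hp, hpp, h2, hef2, true_and, true_or, h3]
          cases hpf : onS f p with
          | true =>
            simp only [if_true, hdiA f hef2, hdiB f hef2]
            cases hqf : onS f q with
            | true => simp
            | false => simp [sg, hqf]
          | false => simp
      have hs1 := (sym_opp (sym_sg hsa p) d).dis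
      have hs2 := (sym_sg hsb (stp d p)).dis
      rcases cases3 d e with he | he | hde
      · exact key e f hef (Or.inl he)
      · exact key e f hef (Or.inr he)
      · have hf : f = d ∨ f = d.op := by
          rcases cases3 d f with hf | hf | hf
          · exact Or.inl hf
          · exact Or.inr hf
          · exfalso
            apply hef
            revert hde hf
            cases d.hor <;> cases e.hor <;> cases f.hor <;> simp
        rw [hs1 e f, hs2 e f]
        exact key f e (Ne.symm hef) hf
  · funext e f
    show (if e.hor = f.hor then none else (sg (sg η q) p).gam (rho d e) (rho d f)) =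
      (sg (sg η (stp d q)) (stp d p)).gam e f
    have hG : ∀ e f, (sg (sg η q) p).gam e f = if e.hor ≠ f.hor ∧ onS e p = true ∧ onS f p = true then
        (if (sg η q).ln e = false ∧ (sg η q).ln f = false then some η.m
          else (sg η q).gam e f) else none := fun _ _ => rfl
    have hH : (sg (sg η (stp d q)) (stp d p)).gam e f =
      if e.hor ≠ f.hor ∧ onS e (stp d p) = true ∧ onS f (stp d p) = true then
        (if (sg η (stp d q)).ln e = false ∧ (sg η (stp d q)).ln f = false then some η.m
          else (sg η (stp d q)).gam e f) else none := rfl
    rw [hH]
    have gA : ∀ f, (sg η q).gam d f = none := by intro f; simp [sg, hq]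
    have gA' : ∀ f, (sg η q).gam f d = none := by intro f; simp [sg, hq]
    have gB : ∀ f, (sg η (stp d q)).gam d.op f = none := by intro f; simp [sg, h1]
    have gB' : ∀ f, (sg η (stp d q)).gam f d.op = none := by intro f; simp [sg, h1]
    have lA : ∀ f, (sg η q).ln f = onS f q := fun _ => rfl
    have lB : ∀ f, (sg η (stp d q)).ln f = onS f (stp d q) := fun _ => rfl
    by_cases hef : e.hor = f.hor
    · simp [hef]
    · rcases cases3 d e with rfl | rfl | hde
      · rw [rho_self, hG]
        simp [hps, hpo]
      · have hef2 : d.hor ≠ f.hor := by simpa using hef
        have h2 : onS f (stp d p) = onS f p := onS_stp_perp (Ne.symm hef2) p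
        have h3 : onS f (stp d q) = onS f q := onS_stp_perp (Ne.symm hef2) q
        rw [rho_op, rho_perp hef2, hG, gA, gB, lA, lA, lB, lB, h1, hq, h2, h3, hpp, hp]
        simp [hef2]
      · have h2 : onS e (stp d p) = onS e p := onS_stp_perp (Ne.symm hde) p
        have h3 : onS e (stp d q) = onS e q := onS_stp_perp (Ne.symm hde) q
        have hf : f = d ∨ f = d.op := by
          rcases cases3 d f with hf | hf | hf
          · exact Or.inl hf
          · exact Or.inr hf
          · exfalso
            apply hef
            revert hde hf
            cases d.hor <;> cases e.hor <;> cases f.hor <;> simp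
        rcases hf with rfl | rfl
        · rw [rho_self, rho_perp hde, hG]
          simp [hps, hpo]
        · rw [rho_op, rho_perp hde, hG, gA', gB', lA, lA, lB, lB, h1, hq, h2, h3, hpp, hp]
          simp [Ne.symm hde]
  · funext a b
    show Rx (fun u v => Rx η.R (phi η q u) (phi η q v)) (phi (sg η q) p (psi (sg (sg η q) p) d a))
        (phi (sg η q) p (psi (sg (sg η q) p) d b)) =
      Rx (fun u v => Rx η.R (phi η (stp d q) u) (phi η (stp d q) v))
        (phi (sg η (stp d q)) (stp d p) a) (phi (sg η (stp d q)) (stp d p) b)
    refine (Rx_map (Rx η.R) (phi η q) _ _).symm.trans ?_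
    rw [sib_sg_R h hq hp a, sib_sg_R h hq hp b]
    exact Rx_map (Rx η.R) (phi η (stp d q)) _ _

end Pool.Agent.VHW
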