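import Pool.Agent.VHW.Der

/-!
# VHW/Straight : straightness (helper18, `MP_720b7c_al`)
-/

set_option autoImplicit false

namespace Pool.Agent.VHW

open Pool.Agent.VHS

theorem lam_eq {d : Side} {θ : Raw} {c : Sl} : lam d θ = some c ↔ θ.ln d = true ∧ θ.al d = c := by
  unfold lam
  split_ifs with h <;> simp [h]

theorem hid_eq {d : Side} {θ : Raw} {c : Sl} : hid d θ = some c ↔ θ.be d ≠ θ.al d ∧ θ.be d = c := by
  unfold hid
  split_ifs with h <;> simp [h]

theorem straight {θ : Raw} (h : Inv θ) {d e : Side} (hde : d.hor ≠ e.hor) {c : Sl} (hc : c ≠ θ.m) :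
    (lam d θ ≠ some c ∧ hid d θ ≠ some c) ∨ (lam e θ ≠ some c ∧ hid e θ ≠ some c) ∨
    (lam d θ = some c ∧ lam e θ = some c ∧ ∃ g, θ.gam d e = some g ∧ θ.gam e d = some g ∧
      old θ c g ∧ hid d θ ≠ some g ∧ hid e θ ≠ some g) := by
  simp only [ne_eq, lam_eq, hid_eq]
  cases h1 : θ.ln d with
  | false =>
    cases h2 : θ.ln e with
    | false =>
      by_cases h3 : θ.be d = c
      · by_cases h4 : θ.be e = c
        · exact absurd ((h.ii d e hde h1 h2).2 (h3.trans h4.symm)) (by rw [h3]; exact hc)
        · right; left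
          exact ⟨fun x => by simpa using x.1, fun x => h4 x.2⟩
      · left
        exact ⟨fun x => by simpa using x.1, fun x => h3 x.2⟩
    | true =>
      obtain ⟨_, b1, b2⟩ := h.mix e d (Ne.symm hde) h2 h1
      by_cases h3 : θ.be d = c
      · right; left
        refine ⟨fun x => b1 (h3.trans x.2.symm), fun x => b2 (h3.trans x.2.symm)⟩
      · left
        exact ⟨fun x => by simpa using x.1, fun x => h3 x.2⟩
  | true =>
    cases h2 : θ.ln e with
    | false =>
      obtain ⟨_, b1, b2⟩ := h.mix d e hde h1 h2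
      by_cases h3 : θ.be e = c
      · left
        refine ⟨fun x => b1 (h3.trans x.2.symm), fun x => b2 (h3.trans x.2.symm)⟩
      · right; left
        exact ⟨fun x => by simpa using x.1, fun x => h3 x.2⟩
    | true =>
      cases hx : θ.di d e with
      | none =>
        obtain ⟨b1, b2, b3, b4⟩ := h.neq d e hde h1 h2 hx
        by_cases h3 : θ.al d = c
        · right; left
          exact ⟨fun x => b1 (h3.trans x.2.symm), fun x => b2 (h3.trans x.2.symm)⟩
        · by_cases h4 : θ.be d = c
          · right; left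
            exact ⟨fun x => b3 (h4.trans x.2.symm), fun x => b4 (h4.trans x.2.symm)⟩
          · left
            exact ⟨fun x => h3 x.2, fun x => h4 x.2⟩
      | some x =>
        obtain ⟨a1, a2, a3, a4, g, g1, g2, g3, g4, g5, g6⟩ := h.eqc d e x hde h1 h2 hx
        by_cases h3 : θ.al d = c
        · right; right
          refine ⟨⟨rfl, h3⟩, ⟨rfl, a1 ▸ h3⟩, g, g1, by rw [h.gas]; exact g1, ⟨hc, g2, ?_⟩,
            fun x => g4 x.2.symm, fun x => g5 x.2.symm⟩
          rw [← h3]; exact g6
        · by_cases h4 : θ.be d = c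
          · right; left
            refine ⟨fun x => h3 (a1.trans x.2), fun x => ?_⟩
            exact h3 ((a4 (h4.trans x.2.symm)).symm.trans h4)
          · left
            exact ⟨fun x => h3 x.2, fun x => h4 x.2⟩

end Pool.Agent.VHW
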