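import Pool.Agent.VHS.Defs

/-!
# VHW/Tpl : the 9 × 9 template with 12 bricks (helper18, `MP_720b7c_al`)

`bk p` is the brick of the position `p`: four vertex bricks `v h k`, four edge bricks `e d` and four
inner bricks `q i`.  A name map `f : Bk → Sl` is `Proper` if the edge bricks differ from their end
vertex bricks and the inner bricks differ from everything.
-/

set_option autoImplicit false

namespace Pool.Agent.VHW

open Pool.Agent.VHS

/-- bricks -/
inductive Bk
  | v (h k : Side)
  | e (d : Side)
  | q (i : Fin 4)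
  deriving DecidableEq

/-- the brick of a position -/
def bk (p : P) : Bk :=
  if 7 ≤ p.2.val then
    (if p.1.val ≤ 2 then .v .L .U else if p.1.val ≤ 5 then .e .U else .v .R .U)
  else if p.2.val ≤ 1 then
    (if p.1.val ≤ 2 then .v .L .B else if p.1.val ≤ 5 then .e .B else .v .R .B)
  else if p.1.val ≤ 1 then .e .L
  else if 7 ≤ p.1.val then .e .R
  else if p.1.val ≤ 4 then (if 5 ≤ p.2.val then .q 0 else .q 1)
  else (if 4 ≤ p.2.val then .q 2 else .q 3)

/-- proper name maps -/
structure Proper {Sl : Type} (f : Bk → Sl) : Prop where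
  ev : ∀ h k : Side, h.hor = true → k.hor = false → f (.e h) ≠ f (.v h k) ∧ f (.e k) ≠ f (.v h k)
  qq : ∀ i j : Fin 4, i ≠ j → f (.q i) ≠ f (.q j)
  qe : ∀ i d, f (.q i) ≠ f (.e d)
  qv : ∀ i h k, f (.q i) ≠ f (.v h k)

theorem bk_thick (d : Side) (p : P) (h : onS d p = true) : bk (stp d.op p) = bk p := by
  revert d p; decide

end Pool.Agent.VHW
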